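import Mathlib

open MeasureTheory Set Filter Topology
open scoped ENNReal NNReal Convolution ContDiff

namespace H51.HT

variable {E : Type*} [NormedAddCommGroup E] [NormedSpace ℝ E] [FiniteDimensional ℝ E]
  [MeasurableSpace E] [BorelSpace E] {μ : Measure E} [μ.IsAddHaarMeasure]
  {F : Type*} [NormedAddCommGroup F] [NormedSpace ℝ F] [CompleteSpace F]

/-- continuity of translations in `L²`. -/
theorem transl_cont {U : E → F} (hU : MemLp U 2 μ) {ε : ℝ≥0∞} (hε : 0 < ε) :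
    ∀ᶠ t in 𝓝 (0 : E), eLpNorm (fun x => U (x - t) - U x) 2 μ ≤ ε := by
  have hmp : ∀ t : E, MeasurePreserving (fun x : E => x - t) μ μ :=
    fun t => measurePreserving_sub_right μ t
  let g : E → C(E, E) := fun t => ⟨fun x => x - t, by fun_prop⟩
  have hg : Continuous g := by
    have : Continuous (fun p : E × E => p.2 - p.1) := by fun_prop
    exact (ContinuousMap.curry ⟨fun p : E × E => p.2 - p.1, this⟩).continuous
  have : Fact ((1 : ℝ≥0∞) ≤ 2) := ⟨by norm_num⟩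
  have hc := Continuous.compMeasurePreservingLp (f := fun _ : E => hU.toLp U) (g := g)
    (μ := μ) (ν := μ) continuous_const hg hmp (by norm_num)
  have h0 := hc.tendsto 0
  have h1 : Tendsto (fun t => edist (Lp.compMeasurePreserving (g t) (hmp t) (hU.toLp U))
      (Lp.compMeasurePreserving (g 0) (hmp 0) (hU.toLp U))) (𝓝 0) (𝓝 0) := by
    have := h0.edist (tendsto_const_nhds
      (x := Lp.compMeasurePreserving (g 0) (hmp 0) (hU.toLp U)))
    simpa using this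
  filter_upwards [h1.eventually (gt_mem_nhds hε)] with t ht
  refine le_trans (le_of_eq ?_) ht.le
  rw [Lp.edist_def]
  apply eLpNorm_congr_ae
  have e1 := Lp.coeFn_compMeasurePreserving (hU.toLp U) (hmp t)
  have e2 := Lp.coeFn_compMeasurePreserving (hU.toLp U) (hmp 0)
  have e3 := (hmp t).quasiMeasurePreserving.ae_eq_comp hU.coeFn_toLp
  have e4 := (hmp 0).quasiMeasurePreserving.ae_eq_comp hU.coeFn_toLp
  filter_upwards [e1, e2, e3, e4] with x h1 h2 h3 h4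
  simp only [Pi.sub_apply, g]
  simp only [Function.comp, ContinuousMap.coe_mk] at *
  rw [h1, h2, h3, h4]
  simp

theorem jensen_sq {α : Type*} [MeasurableSpace α] {ν : Measure α} {w g : α → ℝ≥0∞}
    (hw : AEMeasurable w ν) (hg : AEMeasurable g ν) (h1 : ∫⁻ t, w t ∂ν = 1) :
    (∫⁻ t, w t * g t ∂ν) ^ 2 ≤ ∫⁻ t, w t * g t ^ 2 ∂ν := by
  have h := ENNReal.lintegral_mul_le_Lp_mul_Lq ν (p := 2) (q := 2) (by
    constructor <;> norm_num) (f := fun t => w t ^ (1/2 : ℝ)) (g := fun t => w t ^ (1/2 : ℝ) * g t)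
    (hw.pow_const _) ((hw.pow_const _).mul hg)
  have e1 : (fun t => w t ^ (1/2 : ℝ)) * (fun t => w t ^ (1/2 : ℝ) * g t)
      = fun t => w t * g t := by
    funext t
    simp only [Pi.mul_apply]
    rw [← mul_assoc, ← ENNReal.rpow_add_of_nonneg _ _ (by norm_num) (by norm_num)]
    norm_num
  have e2 : ∀ t, (w t ^ (1/2 : ℝ)) ^ (2 : ℝ) = w t := by
    intro t
    rw [← ENNReal.rpow_mul]; norm_num
  have e3 : ∀ t, (w t ^ (1/2 : ℝ) * g t) ^ (2 : ℝ) = w t * g t ^ 2 := by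
    intro t
    rw [ENNReal.mul_rpow_of_nonneg _ _ (by norm_num), e2]
    norm_num
  rw [e1] at h
  simp only [e2, e3, h1] at h
  rw [ENNReal.one_rpow, one_mul] at h
  calc (∫⁻ t, w t * g t ∂ν) ^ 2 ≤ ((∫⁻ t, w t * g t ^ 2 ∂ν) ^ (1 / 2 : ℝ)) ^ 2 := by gcongr
    _ = _ := by
      rw [← ENNReal.rpow_natCast, ← ENNReal.rpow_mul]; norm_num

omit [NormedSpace ℝ E] [FiniteDimensional ℝ E] [BorelSpace E] [μ.IsAddHaarMeasure]
  [NormedSpace ℝ F] [CompleteSpace F] in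
theorem sq_eLpNorm (f : E → F) : eLpNorm f 2 μ ^ 2 = ∫⁻ x, ‖f x‖ₑ ^ 2 ∂μ := by
  rw [eLpNorm_eq_lintegral_rpow_enorm_toReal two_ne_zero ENNReal.ofNat_ne_top]
  rw [← ENNReal.rpow_natCast, ← ENNReal.rpow_mul]
  norm_num

omit [NormedSpace ℝ E] [FiniteDimensional ℝ E] [BorelSpace E] [μ.IsAddHaarMeasure]
  [NormedSpace ℝ F] [CompleteSpace F] in
theorem eLpNorm_le_iff (f : E → F) (ε : ℝ≥0∞) :
    eLpNorm f 2 μ ≤ ε ↔ ∫⁻ x, ‖f x‖ₑ ^ 2 ∂μ ≤ ε ^ 2 := by
  rw [← sq_eLpNorm]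
  constructor
  · intro h; gcongr
  · intro h; exact (ENNReal.pow_le_pow_left_iff (by norm_num)).1 h

/-- `L²` estimate for mollification. -/
theorem moll_le_aux {U : E → F} (hU : MemLp U 2 μ) (hUm : StronglyMeasurable U)
    {ε : ℝ≥0∞} {δ : ℝ}
    (hδ : ∀ t : E, ‖t‖ ≤ δ → eLpNorm (fun x => U (x - t) - U x) 2 μ ≤ ε)
    {φ : E → ℝ} (hφc : Continuous φ) (hφ0 : ∀ t, 0 ≤ φ t) (hφs : ∀ t, δ < ‖t‖ → φ t = 0)
    (hφcs : HasCompactSupport φ) (hφ1 : ∫ t, φ t ∂μ = 1) :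
    eLpNorm (fun x => (∫ t, φ (x - t) • U t ∂μ) - U x) 2 μ ≤ ε := by
  have hφi : Integrable φ μ := hφc.integrable_of_hasCompactSupport hφcs
  have hφ1' : ∫⁻ t, ENNReal.ofReal (φ t) ∂μ = 1 := by
    rw [← ofReal_integral_eq_lintegral_ofReal hφi (Eventually.of_forall hφ0), hφ1]; simp
  have hLI : LocallyIntegrable U μ := hU.locallyIntegrable (by norm_num)
  have hint : ∀ x, Integrable (fun t => φ t • U (x - t)) μ := by
    intro x
    have h1 : Integrable (fun t => φ (x - t) • U t) μ := by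
      have : HasCompactSupport (fun t => φ (x - t)) :=
        hφcs.comp_homeomorph (Homeomorph.subLeft x)
      exact hLI.integrable_smul_left_of_hasCompactSupport (by fun_prop) this
    have h2 := h1.comp_sub_left x
    simpa using h2
  have hpt : ∀ x, (∫ t, φ (x - t) • U t ∂μ) - U x = ∫ t, φ t • (U (x - t) - U x) ∂μ := by
    intro x
    have h1 : ∫ t, φ (x - t) • U t ∂μ = ∫ t, φ t • U (x - t) ∂μ := by
      rw [← integral_sub_left_eq_self (fun t => φ t • U (x - t)) μ x]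
      simp
    have h2 : U x = ∫ t, φ t • U x ∂μ := by
      rw [integral_smul_const, hφ1, one_smul]
    calc (∫ t, φ (x - t) • U t ∂μ) - U x
        = (∫ t, φ t • U (x - t) ∂μ) - ∫ t, φ t • U x ∂μ := by rw [h1, ← h2]
      _ = _ := by
        rw [← integral_sub (hint x) (hφi.smul_const _)]
        simp only [smul_sub]
  have hsq : ∀ x, ‖(∫ t, φ (x - t) • U t ∂μ) - U x‖ₑ ^ 2 ≤
      ∫⁻ t, ENNReal.ofReal (φ t) * ‖U (x - t) - U x‖ₑ ^ 2 ∂μ := by
    intro x
    rw [hpt x]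
    calc ‖∫ t, φ t • (U (x - t) - U x) ∂μ‖ₑ ^ 2 ≤
        (∫⁻ t, ‖φ t • (U (x - t) - U x)‖ₑ ∂μ) ^ 2 := by
          gcongr; exact enorm_integral_le_lintegral_enorm _
      _ = (∫⁻ t, ENNReal.ofReal (φ t) * ‖U (x - t) - U x‖ₑ ∂μ) ^ 2 := by
          congr 2; funext t
          rw [enorm_smul, Real.enorm_of_nonneg (hφ0 t)]
      _ ≤ _ := by
          apply jensen_sq
          · exact (by fun_prop : Measurable fun t => ENNReal.ofReal (φ t)).aemeasurable
          · refine StronglyMeasurable.enorm ?_ |>.aemeasurable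
            exact (hUm.comp_measurable (by fun_prop)).sub stronglyMeasurable_const
          · exact hφ1'
  rw [eLpNorm_le_iff]
  have hmeas : Measurable (fun p : E × E => ENNReal.ofReal (φ p.2) * ‖U (p.1 - p.2) - U p.1‖ₑ ^ 2) := by
    have h1 : StronglyMeasurable (fun p : E × E => U (p.1 - p.2) - U p.1) :=
      (hUm.comp_measurable (by fun_prop)).sub (hUm.comp_measurable (by fun_prop))
    exact (by fun_prop : Measurable (fun p : E × E => ENNReal.ofReal (φ p.2))).mul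
      (h1.enorm.pow_const _)
  calc ∫⁻ x, ‖(∫ t, φ (x - t) • U t ∂μ) - U x‖ₑ ^ 2 ∂μ
      ≤ ∫⁻ x, ∫⁻ t, ENNReal.ofReal (φ t) * ‖U (x - t) - U x‖ₑ ^ 2 ∂μ ∂μ :=
        lintegral_mono hsq
    _ = ∫⁻ t, ∫⁻ x, ENNReal.ofReal (φ t) * ‖U (x - t) - U x‖ₑ ^ 2 ∂μ ∂μ :=
        lintegral_lintegral_swap hmeas.aemeasurable
    _ ≤ ∫⁻ t, ENNReal.ofReal (φ t) * ε ^ 2 ∂μ := by
        apply lintegral_mono
        intro t
        dsimp only
        rw [lintegral_const_mul' _ _ ENNReal.ofReal_ne_top]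
        by_cases ht : δ < ‖t‖
        · simp [hφs t ht]
        · gcongr
          exact (eLpNorm_le_iff _ _).1 (hδ t (not_lt.1 ht))
    _ = ε ^ 2 := by
        rw [lintegral_mul_const'' _ (by fun_prop), hφ1', one_mul]

/-- `L²` estimate for mollification. -/
theorem moll_le {U : E → F} (hU : MemLp U 2 μ)
    {ε : ℝ≥0∞} {δ : ℝ}
    (hδ : ∀ t : E, ‖t‖ ≤ δ → eLpNorm (fun x => U (x - t) - U x) 2 μ ≤ ε)
    {φ : E → ℝ} (hφc : Continuous φ) (hφ0 : ∀ t, 0 ≤ φ t) (hφs : ∀ t, δ < ‖t‖ → φ t = 0)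
    (hφcs : HasCompactSupport φ) (hφ1 : ∫ t, φ t ∂μ = 1) :
    eLpNorm (fun x => (∫ t, φ (x - t) • U t ∂μ) - U x) 2 μ ≤ ε := by
  obtain ⟨U', hU'm, hUU'⟩ := hU.1
  have hU' : MemLp U' 2 μ := (memLp_congr_ae hUU').1 hU
  have hsh : ∀ t : E, (fun x => U (x - t)) =ᵐ[μ] fun x => U' (x - t) := fun t =>
    (measurePreserving_sub_right μ t).quasiMeasurePreserving.ae_eq_comp hUU'
  have h := moll_le_aux hU' hU'm (ε := ε) (δ := δ) (fun t ht => ?_) hφc hφ0 hφs hφcs hφ1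
  · refine le_trans (le_of_eq ?_) h
    apply eLpNorm_congr_ae
    filter_upwards [hUU'] with x hx
    rw [hx]
    congr 1
    apply integral_congr_ae
    filter_upwards [hUU'] with t ht
    rw [ht]
  · refine le_trans (le_of_eq ?_) (hδ t ht)
    apply eLpNorm_congr_ae
    filter_upwards [hUU', hsh t] with x h1 h2
    rw [h1, h2]

end H51.HT
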