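import Pool.Agent.H51.Hartogs.Weak

open MeasureTheory Set Filter Topology
open scoped ENNReal NNReal Convolution ContDiff Manifold

namespace H51.HT

variable {E : Type*} [NormedAddCommGroup E] [NormedSpace ℝ E] [FiniteDimensional ℝ E]
  [MeasurableSpace E] [BorelSpace E] {μ : Measure E} [μ.IsAddHaarMeasure]
  {F : Type*} [NormedAddCommGroup F] [NormedSpace ℂ F] [CompleteSpace F]

/-- one mollification step, whole space. -/
theorem approx_one (L : (E →L[ℝ] ℂ) →L[ℂ] F) {U : E → ℂ} {G : E → F}
    (hU : MemLp U 2 μ) (hG : MemLp G 2 μ) (hw : WD μ univ L U G) {ε : ℝ≥0∞} (hε : 0 < ε)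
    {δ₀ : ℝ} (hδ₀ : 0 < δ₀) :
    ∃ V : E → ℂ, ContDiff ℝ ∞ V ∧ eLpNorm (fun x => V x - U x) 2 μ ≤ ε ∧
      eLpNorm (fun x => L (fderiv ℝ V x) - G x) 2 μ ≤ ε ∧
      ∀ x, (∀ t, ‖t‖ < δ₀ → U (x - t) = 0) → V x = 0 := by
  have h1 := (transl_cont hU hε).and (transl_cont hG hε)
  obtain ⟨δ, hδ, hδ'⟩ := Metric.eventually_nhds_iff.1 h1
  set r := min (δ / 2) (δ₀ / 2) with hr
  have hr0 : 0 < r := by positivity
  let b : ContDiffBump (0 : E) := ⟨r / 2, r, by positivity, by linarith⟩
  set φ := b.normed μ with hφ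
  have hφd : ContDiff ℝ ∞ φ := b.contDiff_normed
  have hφcs : HasCompactSupport φ := b.hasCompactSupport_normed
  have hφ0 : ∀ t, 0 ≤ φ t := b.nonneg_normed
  have hφ1 : ∫ t, φ t ∂μ = 1 := b.integral_normed
  have hφs : ∀ t, r ≤ ‖t‖ → φ t = 0 := by
    intro t ht
    have : t ∉ Function.support φ := by
      rw [hφ, b.support_normed_eq]
      simpa using ht
    simpa using this
  have hLU : LocallyIntegrable U μ := hU.locallyIntegrable (by norm_num)
  refine ⟨moll μ φ U, moll_contDiff hLU hφd hφcs, ?_, ?_, ?_⟩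
  · refine moll_le hU (δ := r) (fun t ht => ?_) hφd.continuous hφ0 (fun t ht => hφs t ht.le) hφcs hφ1
    refine (hδ' ?_).1
    rw [dist_zero_right]
    have : r ≤ δ / 2 := min_le_left _ _
    linarith
  · have h2 : (fun x => L (fderiv ℝ (moll μ φ U) x) - G x) = fun x => moll μ φ G x - G x := by
      funext x
      rw [moll_deriv hLU L hw hφd hφcs]
    rw [h2]
    refine moll_le hG (δ := r) (fun t ht => ?_) hφd.continuous hφ0 (fun t ht => hφs t ht.le) hφcs hφ1
    refine (hδ' ?_).2
    rw [dist_zero_right]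
    have : r ≤ δ / 2 := min_le_left _ _
    linarith
  · intro x hx
    unfold moll
    apply integral_eq_zero_of_ae
    refine Eventually.of_forall fun t => ?_
    by_cases ht : ‖x - t‖ < δ₀
    · have := hx (x - t) ht
      simp only [sub_sub_cancel] at this
      simp [this]
    · have : r ≤ δ₀ / 2 := min_le_right _ _
      simp [hφs (x - t) (by linarith)]

theorem eLpNorm_iUnion_le {α : Type*} [MeasurableSpace α] {ν : Measure α} {G : Type*}
    [NormedAddCommGroup G] (h : α → G) {W : ℕ → Set α} (hW : Monotone W) {ε : ℝ≥0∞}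
    (hε : ∀ n, eLpNorm h 2 (ν.restrict (W n)) ≤ ε) :
    eLpNorm h 2 (ν.restrict (⋃ n, W n)) ≤ ε := by
  have key : ∀ s : Set α, eLpNorm h 2 (ν.restrict s) ^ 2 = ∫⁻ x in s, ‖h x‖ₑ ^ 2 ∂ν := by
    intro s
    rw [eLpNorm_eq_lintegral_rpow_enorm_toReal two_ne_zero ENNReal.ofNat_ne_top]
    rw [← ENNReal.rpow_natCast, ← ENNReal.rpow_mul]
    norm_num
  rw [← ENNReal.pow_le_pow_left_iff (n := 2) (by norm_num), key,
    setLIntegral_iUnion_of_directed _ hW.directed_le]
  apply iSup_le
  intro n
  rw [← key]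
  gcongr
  exact hε n

/-- **Meyers–Serrin**. -/
theorem meyersSerrin {Ω : Set E} (hΩ : IsOpen Ω) (L : (E →L[ℝ] ℂ) →L[ℂ] F) {u : E → ℂ} {f : E → F}
    (hu : MemLp u 2 (μ.restrict Ω)) (hf : MemLp f 2 (μ.restrict Ω)) (hw : WD μ Ω L u f)
    {ε : ℝ≥0∞} (hε : 0 < ε) :
    ∃ v : E → ℂ, ContDiffOn ℝ ∞ v Ω ∧ eLpNorm (fun x => v x - u x) 2 (μ.restrict Ω) ≤ ε ∧
      eLpNorm (fun x => L (fderiv ℝ v x) - f x) 2 (μ.restrict Ω) ≤ ε := by
  -- exhaustion
  let K : ℕ → Set E := fun n => Metric.closedBall 0 n ∩ {x | ((n : ℝ≥0∞) + 1)⁻¹ ≤ Metric.infEDist x Ωᶜ}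
  have hKc : ∀ n, IsCompact (K n) := by
    intro n
    refine (isCompact_closedBall (0 : E) (n : ℝ)).inter_right ?_
    exact isClosed_le continuous_const Metric.continuous_infEDist
  have hKi : ∀ n, K n ⊆ interior (K (n + 1)) := by
    intro n
    have ho : IsOpen (Metric.ball (0 : E) ((n + 1 : ℕ) : ℝ) ∩
        {x | (((n + 1 : ℕ) : ℝ≥0∞) + 1)⁻¹ < Metric.infEDist x Ωᶜ}) :=
      Metric.isOpen_ball.inter (isOpen_lt continuous_const Metric.continuous_infEDist)
    refine subset_trans ?_ (interior_maximal ?_ ho)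
    · rintro x ⟨hx1, hx2⟩
      refine ⟨?_, ?_⟩
      · rw [Metric.mem_closedBall] at hx1
        rw [Metric.mem_ball]
        push_cast
        linarith
      · rw [mem_ofPred_eq] at hx2 ⊢
        refine lt_of_lt_of_le ?_ hx2
        rw [ENNReal.inv_lt_inv]
        have : ((n : ℝ≥0∞) + 1) ≠ (⊤ : ℝ≥0∞) := by simp
        push_cast
        exact ENNReal.lt_add_right this (by norm_num)
    · rintro x ⟨hx1, hx2⟩
      refine ⟨Metric.ball_subset_closedBall hx1, ?_⟩
      rw [mem_ofPred_eq] at hx2 ⊢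
      exact hx2.le
  have hKU : (⋃ n, K n) = Ω := by
    ext x
    rw [mem_iUnion]
    constructor
    · rintro ⟨n, -, hx⟩
      by_contra h
      have h0 : Metric.infEDist x Ωᶜ = 0 := Metric.infEDist_zero_of_mem h
      rw [mem_ofPred_eq, h0] at hx
      simp at hx
    · intro hx
      have hpos : 0 < Metric.infEDist x Ωᶜ := by
        rw [Metric.infEDist_pos_iff_notMem_closure, hΩ.isClosed_compl.closure_eq]
        simpa using hx
      obtain ⟨n, hn⟩ := ENNReal.exists_inv_nat_lt hpos.ne'
      obtain ⟨m, hm⟩ := exists_nat_ge ‖x‖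
      refine ⟨max n m, ?_, ?_⟩
      · rw [Metric.mem_closedBall, dist_zero_right]
        refine hm.trans ?_
        exact_mod_cast le_max_right n m
      · rw [mem_ofPred_eq]
        refine le_trans ?_ hn.le
        rw [ENNReal.inv_le_inv]
        have h1 : (n : ℝ≥0∞) ≤ ((max n m : ℕ) : ℝ≥0∞) := by exact_mod_cast le_max_left n m
        exact h1.trans (le_add_right le_rfl)
  have hKΩ : ∀ n, K n ⊆ Ω := fun n => by rw [← hKU]; exact subset_iUnion K n
  -- cutoffs
  have hψ : ∀ n, ∃ ψ : E → ℝ, ContDiff ℝ ∞ ψ ∧ (∀ᶠ x in 𝓝ˢ (K n), ψ x = 1) ∧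
      (∀ x ∉ K (n + 1), ψ x = 0) := by
    intro n
    obtain ⟨ψ, h1, h2, -⟩ := exists_contMDiffMap_one_nhds_of_subset_interior (n := ⊤) 𝓘(ℝ, E)
      (hKc n).isClosed (hKi n)
    exact ⟨ψ, ψ.contMDiff.contDiff, h1, h2⟩
  choose ψ hψd hψ1 hψ0 using hψ
  let χ : ℕ → E → ℝ := fun n => match n with
    | 0 => ψ 0
    | n + 1 => fun x => ψ (n + 1) x - ψ n x
  have hχd : ∀ n, ContDiff ℝ ∞ (χ n) := by
    intro n
    cases n with
    | zero => exact hψd 0
    | succ n => exact (hψd (n + 1)).sub (hψd n)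
  have hKmono : Monotone K := monotone_nat_of_le_succ fun n => (hKi n).trans interior_subset
  have hχ0 : ∀ n, ∀ x ∉ K (n + 1), χ n x = 0 := by
    intro n x hx
    cases n with
    | zero => exact hψ0 0 x hx
    | succ n =>
      show ψ (n + 1) x - ψ n x = 0
      rw [hψ0 (n + 1) x hx, hψ0 n x (fun h => hx (hKmono (by omega) h)), sub_zero]
  have hχts : ∀ n, tsupport (χ n) ⊆ K (n + 1) := by
    intro n
    refine closure_minimal ?_ (hKc _).isClosed
    intro x hx
    by_contra h
    exact hx (hχ0 n x h)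
  have hχcs : ∀ n, HasCompactSupport (χ n) := fun n =>
    HasCompactSupport.of_support_subset_isCompact (hKc (n + 1)) (subset_closure.trans (hχts n))
  have hχ1 : ∀ n, ∀ x ∈ K n, χ (n + 1) x = 0 := by
    intro n x hx
    show ψ (n + 1) x - ψ n x = 0
    rw [(hψ1 n).self_of_nhdsSet x hx, (hψ1 (n + 1)).self_of_nhdsSet x (hKmono (by omega) hx), sub_self]
  have hsum : ∀ n x, ∑ j ∈ Finset.range (n + 1), χ j x = ψ n x := by
    intro n x
    induction n with
    | zero => simp [χ]
    | succ n ih =>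
      rw [Finset.sum_range_succ, ih]
      show ψ n x + (ψ (n + 1) x - ψ n x) = _
      ring
  -- epsilons and deltas
  obtain ⟨e, he, hes⟩ := ENNReal.exists_pos_sum_of_countable' hε.ne' ℕ
  have hdel : ∀ n, ∃ δ : ℝ, 0 < δ ∧ ∀ x ∈ K n, ∀ t : E, ‖t‖ < δ → x - t ∈ K (n + 1) := by
    intro n
    obtain ⟨δ, hδ, h⟩ := (hKc n).exists_thickening_subset_open isOpen_interior (hKi n)
    refine ⟨δ, hδ, fun x hx t ht => interior_subset (h ?_)⟩
    rw [Metric.mem_thickening_iff]
    exact ⟨x, hx, by simpa [dist_eq_norm] using ht⟩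
  choose δ hδ0 hδ using hdel
  have hcut := fun n => wd_cut hΩ L hu hf hw (hχd n) (hχcs n) ((hχts n).trans (hKΩ _))
  have happ : ∀ n, ∃ V : E → ℂ, ContDiff ℝ ∞ V ∧
      eLpNorm (fun x => V x - χ n x • u x) 2 μ ≤ e n ∧
      eLpNorm (fun x => L (fderiv ℝ V x) - (χ n x • f x + u x • L (dC (χ n) x))) 2 μ ≤ e n ∧
      ∀ x, (∀ t, ‖t‖ < δ (n - 2) → χ n (x - t) • u (x - t) = 0) → V x = 0 := fun n =>
    approx_one L (hcut n).1 (hcut n).2.1 (hcut n).2.2 (he n) (hδ0 (n - 2))
  choose V hVd hV1 hV2 hV0 using happ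
  have hVz : ∀ n x, x ∈ K n → ∀ j, n + 2 ≤ j → V j x = 0 := by
    intro n x hx j hj
    apply hV0
    intro t ht
    obtain ⟨k, rfl⟩ : ∃ k, j = k + 2 := ⟨j - 2, by omega⟩
    simp only [Nat.add_sub_cancel] at ht
    have h1 : x - t ∈ K (k + 1) := hδ k x (hKmono (by omega) hx) t ht
    rw [hχ1 (k + 1) _ h1, zero_smul]
  let v : E → ℂ := fun x => ∑' j, V j x
  have hv : ∀ n x, x ∈ K n → v x = ∑ j ∈ Finset.range (n + 2), V j x := by
    intro n x hx
    exact tsum_eq_sum fun j hj => hVz n x hx j (by simpa using hj)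
  have hvev : ∀ n, ∀ x ∈ interior (K n), v =ᶠ[𝓝 x] fun y => ∑ j ∈ Finset.range (n + 2), V j y := by
    intro n x hx
    filter_upwards [isOpen_interior.mem_nhds hx] with y hy
    exact hv n y (interior_subset hy)
  have hWU : (⋃ n, interior (K n)) = Ω := by
    apply Subset.antisymm
    · exact iUnion_subset fun n => interior_subset.trans (hKΩ n)
    · rw [← hKU]
      exact iUnion_subset fun n => (hKi n).trans (subset_iUnion (fun n => interior (K n)) (n + 1))
  have hWmono : Monotone (fun n => interior (K n)) := fun a b hab => interior_mono (hKmono hab)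
  refine ⟨v, ?_, ?_, ?_⟩
  · rw [← hWU]
    intro x hx
    obtain ⟨n, hn⟩ := mem_iUnion.1 hx
    have h1 : ContDiffAt ℝ ∞ (fun y => ∑ j ∈ Finset.range (n + 2), V j y) x :=
      (ContDiff.sum fun j _ => hVd j).contDiffAt
    exact (h1.congr_of_eventuallyEq (hvev n x hn)).contDiffWithinAt
  · have hle : ∀ n, eLpNorm (fun x => v x - u x) 2 (μ.restrict (interior (K n))) ≤ ε := by
      intro n
      have h1 : eLpNorm (fun x => v x - u x) 2 (μ.restrict (interior (K n))) =
          eLpNorm (fun x => ∑ j ∈ Finset.range (n + 2), (V j x - χ j x • u x)) 2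
            (μ.restrict (interior (K n))) := by
        apply eLpNorm_congr_ae
        refine (ae_restrict_iff' isOpen_interior.measurableSet).2 (Eventually.of_forall fun x hx => ?_)
        have hxK := interior_subset hx
        dsimp only
        rw [Finset.sum_sub_distrib, ← hv n x hxK, ← Finset.sum_smul, hsum (n + 1),
          (hψ1 (n + 1)).self_of_nhdsSet x (hKmono (by omega) hxK), one_smul]
      rw [h1]
      refine (eLpNorm_mono_measure _ Measure.restrict_le_self).trans ?_
      have h2 := eLpNorm_sum_le (p := 2) (μ := μ) (s := Finset.range (n + 2))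
        (f := fun j x => V j x - χ j x • u x)
        (fun j _ => (hVd j).continuous.aestronglyMeasurable.sub (hcut j).1.1) (by norm_num)
      have h3 : (fun x => ∑ j ∈ Finset.range (n + 2), (V j x - χ j x • u x)) =
        ∑ j ∈ Finset.range (n + 2), fun x => V j x - χ j x • u x := by
        funext x; simp
      rw [h3]
      refine h2.trans ?_
      refine (Finset.sum_le_sum fun j _ => hV1 j).trans ?_
      exact (ENNReal.sum_le_tsum _).trans hes.le
    have := eLpNorm_iUnion_le (ν := μ) (fun x => v x - u x) hWmono hle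
    rwa [hWU] at this
  · have hle : ∀ n, eLpNorm (fun x => L (fderiv ℝ v x) - f x) 2 (μ.restrict (interior (K n))) ≤ ε := by
      intro n
      have h1 : eLpNorm (fun x => L (fderiv ℝ v x) - f x) 2 (μ.restrict (interior (K n))) =
          eLpNorm (fun x => ∑ j ∈ Finset.range (n + 2),
            (L (fderiv ℝ (V j) x) - (χ j x • f x + u x • L (dC (χ j) x)))) 2
            (μ.restrict (interior (K n))) := by
        apply eLpNorm_congr_ae
        refine (ae_restrict_iff' isOpen_interior.measurableSet).2 (Eventually.of_forall fun x hx => ?_)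
        have hxK := interior_subset hx
        have hx2 : x ∈ K (n + 1) := hKmono (by omega) hxK
        dsimp only
        rw [(hvev n x hx).fderiv_eq]
        have e1 : fderiv ℝ (fun y => ∑ j ∈ Finset.range (n + 2), V j y) x =
            ∑ j ∈ Finset.range (n + 2), fderiv ℝ (V j) x := by
          rw [fderiv_fun_sum]
          intro j _
          exact ((hVd j).differentiable (by simp)).differentiableAt
        have e2 : ∑ j ∈ Finset.range (n + 2), dC (χ j) x = 0 := by
          have e3 : ∑ j ∈ Finset.range (n + 2), fderiv ℝ (χ j) x = 0 := by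
            have e4 : fderiv ℝ (fun y => ∑ j ∈ Finset.range (n + 2), χ j y) x =
                ∑ j ∈ Finset.range (n + 2), fderiv ℝ (χ j) x := by
              rw [fderiv_fun_sum]
              intro j _
              exact ((hχd j).differentiable (by simp)).differentiableAt
            rw [← e4]
            have e5 : (fun y => ∑ j ∈ Finset.range (n + 2), χ j y) =ᶠ[𝓝 x] fun _ => 1 := by
              have := (eventually_nhdsSet_iff_forall.1 (hψ1 (n + 1))) x hx2
              filter_upwards [this] with y hy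
              rw [hsum (n + 1), hy]
            rw [e5.fderiv_eq]
            simp
          unfold dC
          have e6 := congrArg (fun A : E →L[ℝ] ℝ => Complex.ofRealCLM.comp A) e3
          simp only [ContinuousLinearMap.comp_zero] at e6
          rw [← e6]
          ext w
          simp
        have e7 : ∑ j ∈ Finset.range (n + 2), L (dC (χ j) x) = 0 := by
          rw [← map_sum, e2, map_zero]
        rw [e1, map_sum, Finset.sum_sub_distrib, Finset.sum_add_distrib, ← Finset.sum_smul,
          ← Finset.smul_sum, e7, hsum (n + 1),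
          (hψ1 (n + 1)).self_of_nhdsSet x hx2, one_smul, smul_zero, add_zero]
      rw [h1]
      refine (eLpNorm_mono_measure _ Measure.restrict_le_self).trans ?_
      have h2 := eLpNorm_sum_le (p := 2) (μ := μ) (s := Finset.range (n + 2))
        (f := fun j x => L (fderiv ℝ (V j) x) - (χ j x • f x + u x • L (dC (χ j) x)))
        (fun j _ => by
          refine AEStronglyMeasurable.sub ?_ (hcut j).2.1.1
          have := (hVd j).continuous_fderiv (by simp)
          exact (by fun_prop : Continuous fun x => L (fderiv ℝ (V j) x)).aestronglyMeasurable)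
        (by norm_num)
      have h3 : (fun x => ∑ j ∈ Finset.range (n + 2),
            (L (fderiv ℝ (V j) x) - (χ j x • f x + u x • L (dC (χ j) x)))) =
        ∑ j ∈ Finset.range (n + 2), fun x =>
            (L (fderiv ℝ (V j) x) - (χ j x • f x + u x • L (dC (χ j) x))) := by
        funext x; simp
      rw [h3]
      refine h2.trans ?_
      refine (Finset.sum_le_sum fun j _ => hV2 j).trans ?_
      exact (ENNReal.sum_le_tsum _).trans hes.le
    have := eLpNorm_iUnion_le (ν := μ) (fun x => L (fderiv ℝ v x) - f x) hWmono hle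
    rwa [hWU] at this

end H51.HT
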