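import Pool.Agent.H51.Hartogs.Poly
import Pool.Agent.H51.Hartogs.MS

open MeasureTheory Set Filter Topology
open scoped ENNReal NNReal ContDiff Real ComplexConjugate

namespace H51.HT

open H51.Hartogs (om V)

instance haarC2 : (volume : Measure (ℂ × ℂ)).IsAddHaarMeasure := by
  rw [Measure.volume_eq_prod]; infer_instance

/-- `∂φ/∂z̄` -/
noncomputable def dzbar (φ : ℂ × ℂ → ℂ) (p : ℂ × ℂ) : ℂ :=
  1 / 2 * (fderiv ℝ φ p (1, 0) + Complex.I * fderiv ℝ φ p (Complex.I, 0))

/-- `∂φ/∂w̄` -/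
noncomputable def dwbar (φ : ℂ × ℂ → ℂ) (p : ℂ × ℂ) : ℂ :=
  1 / 2 * (fderiv ℝ φ p (0, 1) + Complex.I * fderiv ℝ φ p (0, Complex.I))

/-- `∂̄u = f₁ dz̄ + f₂ dw̄` in the sense of distributions on `Om`. -/
def IsDbar (u f₁ f₂ : ℂ × ℂ → ℂ) : Prop :=
  ∀ φ : ℂ × ℂ → ℂ, ContDiff ℝ ∞ φ → HasCompactSupport φ → tsupport φ ⊆ Om →
    ∫ p in Om, u p * dzbar φ p = - ∫ p in Om, f₁ p * φ p ∧
    ∫ p in Om, u p * dwbar φ p = - ∫ p in Om, f₂ p * φ p

theorem dzbar_eq (φ : ℂ × ℂ → ℂ) (p : ℂ × ℂ) : dzbar φ p = L1 (fderiv ℝ φ p) := (L1_apply _).symm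

theorem dwbar_eq (φ : ℂ × ℂ → ℂ) (p : ℂ × ℂ) : dwbar φ p = L2 (fderiv ℝ φ p) := (L2_apply _).symm

/-- the `L²` space on `Om`. -/
noncomputable abbrev HOm := Lp ℂ 2 (volume.restrict Om)

theorem memLp_test {ψ : ℂ × ℂ → ℂ} (h1 : Continuous ψ) (h2 : HasCompactSupport ψ) :
    MemLp ψ 2 (volume.restrict Om) :=
  (h1.memLp_of_hasCompactSupport h2).restrict _

/-- pairing functional -/
noncomputable def pair (ψ : ℂ × ℂ → ℂ) (hψ : MemLp ψ 2 (volume.restrict Om)) : HOm →L[ℂ] ℂ :=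
  innerSL ℂ ((MemLp.star hψ).toLp (star ψ))

theorem pair_apply {ψ : ℂ × ℂ → ℂ} (hψ : MemLp ψ 2 (volume.restrict Om)) (u : HOm) :
    pair ψ hψ u = ∫ p in Om, u p * ψ p := by
  unfold pair
  rw [innerSL_apply_apply, L2.inner_def]
  apply integral_congr_ae
  filter_upwards [(MemLp.star hψ).coeFn_toLp] with p hp
  rw [hp]
  simp [RCLike.inner_apply]

theorem test_cs {φ : ℂ × ℂ → ℂ} (h1 : ContDiff ℝ ∞ φ) (h2 : HasCompactSupport φ)
    (L : (ℂ × ℂ →L[ℝ] ℂ) →L[ℂ] ℂ) :
    Continuous (fun p => L (fderiv ℝ φ p)) ∧ HasCompactSupport (fun p => L (fderiv ℝ φ p)) := by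
  constructor
  · exact L.continuous.comp (h1.continuous_fderiv (by simp))
  · exact (h2.fderiv ℝ).comp_left (g := fun A => L A) (by simp)

theorem isDbar_iff (u f₁ f₂ : HOm) : IsDbar u f₁ f₂ ↔
    ∀ φ : ℂ × ℂ → ℂ, ∀ (h1 : ContDiff ℝ ∞ φ) (h2 : HasCompactSupport φ), tsupport φ ⊆ Om →
      pair _ (memLp_test (test_cs h1 h2 L1).1 (test_cs h1 h2 L1).2) u =
        - pair _ (memLp_test h1.continuous h2) f₁ ∧
      pair _ (memLp_test (test_cs h1 h2 L2).1 (test_cs h1 h2 L2).2) u =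
        - pair _ (memLp_test h1.continuous h2) f₂ := by
  unfold IsDbar
  simp only [pair_apply, dzbar_eq, dwbar_eq]

theorem isDbar_sub {u f₁ f₂ v g₁ g₂ : HOm} (h : IsDbar u f₁ f₂) (h' : IsDbar v g₁ g₂) :
    IsDbar (u - v : HOm) (f₁ - g₁ : HOm) (f₂ - g₂ : HOm) := by
  rw [isDbar_iff] at *
  intro φ h1 h2 h3
  obtain ⟨a, b⟩ := h φ h1 h2 h3
  obtain ⟨a', b'⟩ := h' φ h1 h2 h3
  simp only [map_sub, a, b, a', b']
  constructor <;> ring

theorem isDbar_add {u f₁ f₂ v g₁ g₂ : HOm} (h : IsDbar u f₁ f₂) (h' : IsDbar v g₁ g₂) :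
    IsDbar (u + v : HOm) (f₁ + g₁ : HOm) (f₂ + g₂ : HOm) := by
  rw [isDbar_iff] at *
  intro φ h1 h2 h3
  obtain ⟨a, b⟩ := h φ h1 h2 h3
  obtain ⟨a', b'⟩ := h' φ h1 h2 h3
  simp only [map_add, a, b, a', b']
  constructor <;> ring

theorem isDbar_smul {u f₁ f₂ : HOm} (c : ℂ) (h : IsDbar u f₁ f₂) :
    IsDbar (c • u : HOm) (c • f₁ : HOm) (c • f₂ : HOm) := by
  rw [isDbar_iff] at *
  intro φ h1 h2 h3
  obtain ⟨a, b⟩ := h φ h1 h2 h3
  simp only [map_smul, a, b, smul_neg, and_self]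

theorem isDbar_zero : IsDbar (0 : HOm) (0 : HOm) (0 : HOm) := by
  rw [isDbar_iff]
  intro φ h1 h2 h3
  simp

/-- the graph is closed -/
theorem isClosed_graph : IsClosed {x : HOm × (HOm × HOm) | IsDbar x.1 x.2.1 x.2.2} := by
  simp only [isDbar_iff]
  have h : ∀ φ : ℂ × ℂ → ℂ, ∀ (h1 : ContDiff ℝ ∞ φ) (h2 : HasCompactSupport φ),
    IsClosed {x : HOm × (HOm × HOm) | tsupport φ ⊆ Om →
      pair _ (memLp_test (test_cs h1 h2 L1).1 (test_cs h1 h2 L1).2) x.1 =
        - pair _ (memLp_test h1.continuous h2) x.2.1 ∧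
      pair _ (memLp_test (test_cs h1 h2 L2).1 (test_cs h1 h2 L2).2) x.1 =
        - pair _ (memLp_test h1.continuous h2) x.2.2} := by
    intro φ h1 h2
    by_cases h3 : tsupport φ ⊆ Om
    · simp only [h3, true_imp_iff]
      have ha : IsClosed {x : HOm × (HOm × HOm) |
        pair _ (memLp_test (test_cs h1 h2 L1).1 (test_cs h1 h2 L1).2) x.1 =
        - pair _ (memLp_test h1.continuous h2) x.2.1} := isClosed_eq (by fun_prop) (by fun_prop)
      have hb : IsClosed {x : HOm × (HOm × HOm) |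
        pair _ (memLp_test (test_cs h1 h2 L2).1 (test_cs h1 h2 L2).2) x.1 =
        - pair _ (memLp_test h1.continuous h2) x.2.2} := isClosed_eq (by fun_prop) (by fun_prop)
      exact ha.inter hb
    · simp only [h3, false_imp_iff]
      exact isClosed_univ
  have : {x : HOm × (HOm × HOm) | ∀ φ : ℂ × ℂ → ℂ, ∀ (h1 : ContDiff ℝ ∞ φ)
      (h2 : HasCompactSupport φ), tsupport φ ⊆ Om →
      pair _ (memLp_test (test_cs h1 h2 L1).1 (test_cs h1 h2 L1).2) x.1 =
        - pair _ (memLp_test h1.continuous h2) x.2.1 ∧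
      pair _ (memLp_test (test_cs h1 h2 L2).1 (test_cs h1 h2 L2).2) x.1 =
        - pair _ (memLp_test h1.continuous h2) x.2.2} =
      ⋂ (φ : ℂ × ℂ → ℂ) (h1 : ContDiff ℝ ∞ φ) (h2 : HasCompactSupport φ),
        {x : HOm × (HOm × HOm) | tsupport φ ⊆ Om →
      pair _ (memLp_test (test_cs h1 h2 L1).1 (test_cs h1 h2 L1).2) x.1 =
        - pair _ (memLp_test h1.continuous h2) x.2.1 ∧
      pair _ (memLp_test (test_cs h1 h2 L2).1 (test_cs h1 h2 L2).2) x.1 =
        - pair _ (memLp_test h1.continuous h2) x.2.2} := by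
    ext x
    simp only [mem_iInter, mem_ofPred_eq]
  rw [this]
  exact isClosed_iInter fun φ => isClosed_iInter fun h1 => isClosed_iInter fun h2 => h φ h1 h2

/-- holomorphic polynomials are weakly `∂̄`-closed. -/
theorem poly_isDbar (F : Finset (ℤ × ℤ)) (c : ℤ × ℤ → ℂ) :
    IsDbar (poly F c) (fun _ => 0) (fun _ => 0) := by
  intro φ h1 h2 h3
  have hP : ContDiff ℝ ∞ (poly F c) := poly_contDiffR F c
  have hPc : Continuous (poly F c) := hP.continuous
  have hφc := h1.continuous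
  have hdφ : Continuous (fderiv ℝ φ) := h1.continuous_fderiv (by simp)
  have hdP : Continuous (fderiv ℝ (poly F c)) := hP.continuous_fderiv (by simp)
  have hsup : ∀ g : ℂ × ℂ → ℂ, (∀ p ∉ Om, g p = 0) → ∫ p in Om, g p = ∫ p, g p := fun g hg =>
    setIntegral_eq_integral_of_forall_compl_eq_zero hg
  have hφ0 : ∀ p ∉ Om, φ p = 0 := fun p hp => image_eq_zero_of_notMem_tsupport (fun h => hp (h3 h))
  have hdφ0 : ∀ p ∉ Om, fderiv ℝ φ p = 0 := fun p hp =>
    image_eq_zero_of_notMem_tsupport (fun h => hp (h3 (tsupport_fderiv_subset ℝ h)))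
  have hibp : ∀ v : ℂ × ℂ, ∫ p, poly F c p * fderiv ℝ φ p v = - ∫ p, fderiv ℝ (poly F c) p v * φ p := by
    intro v
    apply integral_mul_fderiv_eq_neg_fderiv_mul_of_integrable
    · exact (by fun_prop : Continuous fun p => fderiv ℝ (poly F c) p v * φ p).integrable_of_hasCompactSupport
        h2.mul_left
    · have : HasCompactSupport (fun p => fderiv ℝ φ p v) :=
        (h2.fderiv ℝ).comp_left (g := fun A : ℂ × ℂ →L[ℝ] ℂ => A v) (by simp)
      exact (by fun_prop : Continuous fun p => poly F c p * fderiv ℝ φ p v).integrable_of_hasCompactSupport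
        this.mul_left
    · exact (by fun_prop : Continuous fun p => poly F c p * φ p).integrable_of_hasCompactSupport
        h2.mul_left
    · exact fun p _ => (hP.differentiable (by simp)).differentiableAt
    · exact fun p _ => (h1.differentiable (by simp)).differentiableAt
  have hint : ∀ v : ℂ × ℂ, Integrable (fun p => poly F c p * fderiv ℝ φ p v) := by
    intro v
    have : HasCompactSupport (fun p => fderiv ℝ φ p v) :=
        (h2.fderiv ℝ).comp_left (g := fun A : ℂ × ℂ →L[ℝ] ℂ => A v) (by simp)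
    exact (by fun_prop : Continuous fun p => poly F c p * fderiv ℝ φ p v).integrable_of_hasCompactSupport
        this.mul_left
  -- complex linearity of the derivative
  have hlin : ∀ p v, fderiv ℝ (poly F c) p (Complex.I • v) = Complex.I * fderiv ℝ (poly F c) p v := by
    intro p v
    have hd : DifferentiableAt ℂ (poly F c) p :=
      ((poly_contDiff F c).differentiable (by simp)).differentiableAt
    rw [hd.fderiv_restrictScalars ℝ]
    simp
  have hgen : ∀ v : ℂ × ℂ, ∫ p, poly F c p * (1 / 2 * (fderiv ℝ φ p v +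
      Complex.I * fderiv ℝ φ p (Complex.I • v))) = 0 := by
    intro v
    have e1 : ∀ p, poly F c p * (1 / 2 * (fderiv ℝ φ p v + Complex.I * fderiv ℝ φ p (Complex.I • v))) =
        1 / 2 * (poly F c p * fderiv ℝ φ p v) +
          Complex.I / 2 * (poly F c p * fderiv ℝ φ p (Complex.I • v)) := by
      intro p; ring
    simp only [e1]
    rw [integral_add ((hint v).const_mul _) ((hint _).const_mul _), integral_const_mul,
      integral_const_mul, hibp, hibp]
    simp only [hlin]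
    have e2 : ∀ p, Complex.I * fderiv ℝ (poly F c) p v * φ p =
        Complex.I * (fderiv ℝ (poly F c) p v * φ p) := by intro p; ring
    simp only [e2]
    rw [integral_const_mul]
    linear_combination (-(1 : ℂ) / 2 * ∫ p, fderiv ℝ (poly F c) p v * φ p) * Complex.I_sq
  constructor
  · rw [hsup]
    · have := hgen (1, 0)
      simp only [Prod.smul_mk, smul_eq_mul, mul_one, mul_zero] at this
      simp only [dzbar]
      rw [this]; simp
    · intro p hp; simp [dzbar, hdφ0 p hp]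
  · rw [hsup]
    · have := hgen (0, 1)
      simp only [Prod.smul_mk, smul_eq_mul, mul_one, mul_zero] at this
      simp only [dwbar]
      rw [this]; simp
    · intro p hp; simp [dwbar, hdφ0 p hp]

theorem Om_subset_ball : Om ⊆ Metric.closedBall (0 : ℂ × ℂ) 2 := by
  intro p hp
  rw [mem_Om] at hp
  rw [mem_closedBall_zero_iff, Prod.norm_def]
  apply max_le
  · nlinarith [norm_nonneg p.1, norm_nonneg p.2, hp.1]
  · nlinarith [norm_nonneg p.1, norm_nonneg p.2, hp.1]

theorem finite_Om : volume Om < ⊤ :=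
  (measure_mono Om_subset_ball).trans_lt (isCompact_closedBall _ _).measure_lt_top

instance : IsFiniteMeasure (volume.restrict Om) := ⟨by simpa using finite_Om⟩

theorem poly_memLp (F : Finset (ℤ × ℤ)) (c : ℤ × ℤ → ℂ) :
    MemLp (poly F c) 2 (volume.restrict Om) := by
  have hc : Continuous (poly F c) := (poly_contDiffR F c).continuous
  obtain ⟨C, hC⟩ := (isCompact_closedBall (0 : ℂ × ℂ) 2).exists_bound_of_continuousOn hc.continuousOn
  refine MemLp.of_bound hc.aestronglyMeasurable C ?_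
  refine (ae_restrict_iff' isOpen_Om.measurableSet).2 (Eventually.of_forall fun p hp => ?_)
  exact hC p (Om_subset_ball hp)

end H51.HT
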