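import Mathlib

namespace H51.Hartogs

/-- the moduli domain -/
def om : Set (ℝ × ℝ) := {p | 0 < p.1 ∧ 0 < p.2 ∧ p.1 ^ 2 + p.2 ^ 2 < 4 ∧ (p.2 < p.1 ∨ 1 < p.2)}

/-- weight -/
noncomputable def V (m n : ℤ) (p : ℝ × ℝ) : ℝ := p.1 ^ (2 * m + 1) * p.2 ^ (2 * n + 1)

end H51.Hartogs
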