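import Pool.Agent.H51.Hartogs.Polar
import Pool.Agent.H51.Hartogs.Quad

open MeasureTheory Set Filter Topology AddCircle
open scoped ENNReal NNReal ContDiff Real ComplexConjugate

namespace H51.HT

open H51.Hartogs (om V)

/-- The (open) Hartogs triangle. -/
def Tri : Set (ℂ × ℂ) := {p | ‖p.1‖ < ‖p.2‖ ∧ ‖p.2‖ < 1}

/-- The ball of radius two minus the closed Hartogs triangle. -/
def Om : Set (ℂ × ℂ) := {p | ‖p.1‖ ^ 2 + ‖p.2‖ ^ 2 < 4} \ closure Tri

theorem closure_Tri : closure Tri = {p : ℂ × ℂ | ‖p.1‖ ≤ ‖p.2‖ ∧ ‖p.2‖ ≤ 1} := by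
  apply Subset.antisymm
  · apply closure_minimal
    · rintro p ⟨h1, h2⟩; exact ⟨h1.le, h2.le⟩
    · have h1 : IsClosed {p : ℂ × ℂ | ‖p.1‖ ≤ ‖p.2‖} := isClosed_le (by fun_prop) (by fun_prop)
      have h2 : IsClosed {p : ℂ × ℂ | ‖p.2‖ ≤ 1} := isClosed_le (by fun_prop) (by fun_prop)
      exact h1.inter h2
  · rintro ⟨z, w⟩ ⟨h1, h2⟩
    simp only at h1 h2
    by_cases hw : w = 0
    · subst hw
      have hz : z = 0 := by simpa using h1
      subst hz
      have ht : Tendsto (fun t : ℝ => ((0 : ℂ), (t : ℂ))) (𝓝[>] 0) (𝓝 (0, 0)) := by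
        have : Continuous (fun t : ℝ => ((0 : ℂ), (t : ℂ))) := by fun_prop
        have h := this.tendsto 0
        simp only [Complex.ofReal_zero] at h
        exact h.mono_left nhdsWithin_le_nhds
      refine mem_closure_of_tendsto ht ?_
      filter_upwards [Ioo_mem_nhdsGT (zero_lt_one' ℝ)] with t ht
      simp only [Tri, mem_ofPred_eq, norm_zero, Complex.norm_real, Real.norm_eq_abs,
        abs_of_pos ht.1]
      exact ht
    · have ht : Tendsto (fun t : ℝ => (((t ^ 2 : ℝ) : ℂ) * z, (t : ℂ) * w)) (𝓝[<] 1) (𝓝 (z, w)) := by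
        have : Continuous (fun t : ℝ => (((t ^ 2 : ℝ) : ℂ) * z, (t : ℂ) * w)) := by fun_prop
        have h := this.tendsto 1
        simp only [one_pow, Complex.ofReal_one, one_mul] at h
        exact h.mono_left nhdsWithin_le_nhds
      refine mem_closure_of_tendsto ht ?_
      filter_upwards [Ioo_mem_nhdsLT (zero_lt_one' ℝ)] with t ht
      obtain ⟨ht0, ht1⟩ := ht
      have hw' : 0 < ‖w‖ := norm_pos_iff.2 hw
      simp only [Tri, mem_ofPred_eq, norm_mul, Complex.norm_real, Real.norm_eq_abs,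
        abs_of_pos ht0, abs_of_pos (pow_pos ht0 2)]
      constructor
      · calc t ^ 2 * ‖z‖ ≤ t ^ 2 * ‖w‖ := by gcongr
          _ < t * ‖w‖ := by
            have : t ^ 2 < t := by nlinarith
            gcongr
      · calc t * ‖w‖ ≤ t * 1 := by gcongr
          _ < 1 := by linarith

theorem mem_Om {p : ℂ × ℂ} : p ∈ Om ↔ ‖p.1‖ ^ 2 + ‖p.2‖ ^ 2 < 4 ∧ (‖p.2‖ < ‖p.1‖ ∨ 1 < ‖p.2‖) := by
  rw [Om, closure_Tri]
  simp only [Set.mem_sdiff, mem_ofPred_eq, not_and_or, not_le]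

theorem isOpen_Om : IsOpen Om := by
  have : IsOpen {p : ℂ × ℂ | ‖p.1‖ ^ 2 + ‖p.2‖ ^ 2 < 4} :=
    isOpen_lt (by fun_prop) (by fun_prop)
  exact this.sdiff isClosed_closure

theorem isOpen_om : IsOpen om := by
  have h1 : IsOpen {p : ℝ × ℝ | 0 < p.1} := isOpen_lt (by fun_prop) (by fun_prop)
  have h2 : IsOpen {p : ℝ × ℝ | 0 < p.2} := isOpen_lt (by fun_prop) (by fun_prop)
  have h3 : IsOpen {p : ℝ × ℝ | p.1 ^ 2 + p.2 ^ 2 < 4} := isOpen_lt (by fun_prop) (by fun_prop)
  have h4 : IsOpen {p : ℝ × ℝ | p.2 < p.1} := isOpen_lt (by fun_prop) (by fun_prop)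
  have h5 : IsOpen {p : ℝ × ℝ | 1 < p.2} := isOpen_lt (by fun_prop) (by fun_prop)
  exact h1.inter (h2.inter (h3.inter (h4.union h5)))

theorem act_mem_Om (k : Ci × Ci) (p : ℂ × ℂ) : act k p ∈ Om ↔ p ∈ Om := by
  rw [mem_Om, mem_Om]
  simp only [act, norm_mul, Circle.norm_coe, one_mul]

theorem act_inv (k : Ci × Ci) (p : ℂ × ℂ) (h : p ∈ Om) : act k p ∈ Om := (act_mem_Om k p).2 h

theorem emb_mem_Om {q : ℝ × ℝ} (h1 : 0 < q.1) (h2 : 0 < q.2) : emb q ∈ Om ↔ q ∈ om := by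
  rw [mem_Om]
  simp only [emb_apply, Complex.norm_real, Real.norm_eq_abs, abs_of_pos h1, abs_of_pos h2, om,
    mem_ofPred_eq, h1, h2, true_and]

theorem emb_om {q : ℝ × ℝ} (h : q ∈ om) : emb q ∈ Om := (emb_mem_Om h.1 h.2.1).2 h

/-- weight of bipolar coordinates -/
noncomputable def wt (q : ℝ × ℝ) : ℝ≥0∞ := ENNReal.ofReal (2 * π * q.1) * ENNReal.ofReal (2 * π * q.2)

theorem measurable_wt : Measurable wt := by unfold wt; fun_prop

theorem lint_Om {g : ℂ × ℂ → ℂ} (hg : ContinuousOn g Om) :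
    ∫⁻ p in Om, ‖g p‖ₑ ^ 2 = ∫⁻ q in om, wt q * ∫⁻ k, ‖g (act k (emb q))‖ₑ ^ 2 ∂κ := by
  classical
  rw [← lintegral_indicator isOpen_Om.measurableSet]
  have hm : Measurable (Om.indicator (fun p => ‖g p‖ₑ ^ 2)) := by
    have h1 : Measurable (Om.piecewise g 0) :=
      hg.measurable_piecewise continuousOn_const isOpen_Om.measurableSet
    have h2 : (Om.indicator (fun p => ‖g p‖ₑ ^ 2)) = fun p => ‖Om.piecewise g 0 p‖ₑ ^ 2 := by
      funext p
      by_cases hp : p ∈ Om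
      · simp [hp]
      · simp [hp]
    rw [h2]
    exact h1.enorm.pow_const 2
  rw [polar2 hm, ← lintegral_indicator (measurableSet_Ioi.prod measurableSet_Ioi),
    ← lintegral_indicator isOpen_om.measurableSet]
  apply lintegral_congr
  intro q
  by_cases hq : q ∈ Ioi (0 : ℝ) ×ˢ Ioi (0 : ℝ)
  · rw [indicator_of_mem hq]
    by_cases hq2 : q ∈ om
    · rw [indicator_of_mem hq2]
      simp only [wt]
      congr 1
      apply lintegral_congr
      intro k
      rw [indicator_of_mem (act_inv k _ (emb_om hq2))]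
    · rw [indicator_of_notMem hq2]
      have : ∀ k, Om.indicator (fun p => ‖g p‖ₑ ^ 2) (act k (emb q)) = 0 := by
        intro k
        rw [indicator_of_notMem]
        rw [act_mem_Om, emb_mem_Om hq.1 hq.2]
        exact hq2
      simp only [this, lintegral_zero, mul_zero]
  · rw [indicator_of_notMem hq, indicator_of_notMem]
    intro h
    exact hq ⟨h.1, h.2.1⟩

theorem lint_Om_hat {g : ℂ × ℂ → ℂ} (hg : ContinuousOn g Om) :
    ∫⁻ p in Om, ‖g p‖ₑ ^ 2 =
      ∑' m : ℤ, ∑' n : ℤ, ∫⁻ q in om, wt q * ‖hat g m n (emb q)‖ₑ ^ 2 := by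
  rw [lint_Om hg]
  have hme : ∀ m n : ℤ, AEMeasurable (fun q => wt q * ‖hat g m n (emb q)‖ₑ ^ 2)
      (volume.restrict om) := by
    intro m n
    have h1 : ContinuousOn (fun q => hat g m n (emb q)) om :=
      (hat_cont isOpen_Om act_inv hg m n).comp emb.continuous.continuousOn (fun q hq => emb_om hq)
    exact measurable_wt.aemeasurable.mul
      ((h1.aemeasurable isOpen_om.measurableSet).enorm.pow_const 2)
  have h1 : ∀ q ∈ om, wt q * ∫⁻ k, ‖g (act k (emb q))‖ₑ ^ 2 ∂κ =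
      ∑' m : ℤ, ∑' n : ℤ, wt q * ‖hat g m n (emb q)‖ₑ ^ 2 := by
    intro q hq
    have hc : Continuous (fun k => g (act k (emb q))) := by
      have h2 : Continuous (fun k : Ci × Ci => act k (emb q)) :=
        continuous_act.comp (by fun_prop : Continuous fun k : Ci × Ci => (emb q, k))
      exact hg.comp_continuous h2 (fun k => act_inv k _ (emb_om hq))
    rw [← parseval2 hc]
    simp only [ENNReal.tsum_mul_left]
    rfl
  rw [setLIntegral_congr_fun isOpen_om.measurableSet h1]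
  rw [lintegral_tsum]
  · congr 1; funext m
    rw [lintegral_tsum]
    exact fun n => hme m n
  · intro m
    exact AEMeasurable.tsum (fun n => hme m n)

end H51.HT
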