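import Pool.Agent.H51.Hartogs.Dom

open MeasureTheory Set Filter Topology AddCircle
open scoped ENNReal NNReal ContDiff Real ComplexConjugate

namespace H51.HT

open H51.Hartogs (om V)

/-- the weighted inequality (proved in `Pool.Agent.H59.HartogsW`). -/
def WProp (C : ℝ≥0) : Prop := ∀ (m n : ℤ) (Y : ℝ × ℝ → ℂ),
    ContDiffOn ℝ 1 Y om →
    (m < 0 → ∀ y : ℝ, 1 < y → y < 2 → Tendsto Y (𝓝[om] ((0 : ℝ), y)) (𝓝 0)) →
    (n < 0 → ∀ x : ℝ, 0 < x → x < 2 → Tendsto Y (𝓝[om] (x, (0 : ℝ))) (𝓝 0)) →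
    ∫⁻ p in om, ENNReal.ofReal (‖Y p‖ ^ 2 * V m n p) ≠ ⊤ →
    ∃ c : ℂ, (m < 0 ∨ n < 0 → c = 0) ∧
      ∫⁻ p in om, ENNReal.ofReal (‖Y p - c‖ ^ 2 * V m n p) ≤
        C * ∫⁻ p in om, ENNReal.ofReal
          ((‖fderiv ℝ Y p (1, 0)‖ ^ 2 + ‖fderiv ℝ Y p (0, 1)‖ ^ 2) * V m n p)

theorem mode_contDiffOn {g : ℂ × ℂ → ℂ} (hg : ContDiffOn ℝ 1 g Om) (m n : ℤ) :
    ContDiffOn ℝ 1 (mode g m n) om := by
  have h1 : ContDiffOn ℝ 1 (fun q => hat g m n (emb q)) om :=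
    (hat_contDiffOn isOpen_Om act_inv hg m n).comp emb.contDiff.contDiffOn (fun q hq => emb_om hq)
  have h2 : ∀ k : ℤ, ∀ x : ℝ, x ≠ 0 → ContDiffAt ℝ 1 (fun t : ℝ => (t : ℂ) ^ k) x := by
    intro k x hx
    have hx' : (x : ℂ) ≠ 0 := by exact_mod_cast hx
    have h3 : ContDiffAt ℝ 1 (fun z : ℂ => z ^ k) (x : ℂ) := by
      obtain ⟨j, rfl | rfl⟩ := k.eq_nat_or_neg
      · simp only [zpow_natCast]; fun_prop
      · simp only [zpow_neg, zpow_natCast]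
        exact (by fun_prop : ContDiffAt ℝ 1 (fun z : ℂ => z ^ j) (x : ℂ)).inv (pow_ne_zero _ hx')
    exact h3.comp x Complex.ofRealCLM.contDiff.contDiffAt
  have h3 : ContDiffOn ℝ 1 (fun q : ℝ × ℝ => (q.1 : ℂ) ^ (-m)) om := by
    intro q hq
    exact ((h2 (-m) q.1 hq.1.ne').comp q contDiffAt_fst).contDiffWithinAt
  have h4 : ContDiffOn ℝ 1 (fun q : ℝ × ℝ => (q.2 : ℂ) ^ (-n)) om := by
    intro q hq
    exact ((h2 (-n) q.2 hq.2.1.ne').comp q contDiffAt_snd).contDiffWithinAt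
  exact (h3.mul h4).mul h1

theorem zpow_tendsto_zero {k : ℤ} (hk : 0 < k) : Tendsto (fun z : ℂ => z ^ k) (𝓝 0) (𝓝 0) := by
  obtain ⟨j, rfl⟩ := Int.eq_ofNat_of_zero_le hk.le
  have hj : j ≠ 0 := by rintro rfl; simp at hk
  simp only [zpow_natCast]
  have : Continuous (fun z : ℂ => z ^ j) := by fun_prop
  have h := this.tendsto 0
  rwa [zero_pow hj] at h

theorem mode_lim1 {g : ℂ × ℂ → ℂ} (hg : ContinuousOn g Om) {m n : ℤ} (hm : m < 0) {y : ℝ}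
    (hy1 : 1 < y) (hy2 : y < 2) : Tendsto (mode g m n) (𝓝[om] ((0 : ℝ), y)) (𝓝 0) := by
  have hmem : emb (0, y) ∈ Om := by
    rw [mem_Om]
    simp only [emb_apply, Complex.norm_real, Real.norm_eq_abs, abs_of_pos (by linarith : 0 < y),
      abs_zero]
    exact ⟨by nlinarith, Or.inr hy1⟩
  have h1 : Tendsto (fun q => hat g m n (emb q)) (𝓝[om] ((0 : ℝ), y)) (𝓝 (hat g m n (emb (0, y)))) := by
    have h2 := ((hat_cont isOpen_Om act_inv hg m n).continuousAt (isOpen_Om.mem_nhds hmem)).tendsto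
    exact h2.comp ((emb.continuous.tendsto _).mono_left nhdsWithin_le_nhds)
  have h3 : Tendsto (fun q : ℝ × ℝ => (q.1 : ℂ) ^ (-m)) (𝓝[om] ((0 : ℝ), y)) (𝓝 0) := by
    have h4 : Tendsto (fun q : ℝ × ℝ => (q.1 : ℂ)) (𝓝[om] ((0 : ℝ), y)) (𝓝 0) := by
      have : Continuous (fun q : ℝ × ℝ => (q.1 : ℂ)) := by fun_prop
      have h5 := this.tendsto ((0 : ℝ), y)
      simp only [Complex.ofReal_zero] at h5
      exact h5.mono_left nhdsWithin_le_nhds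
    exact (zpow_tendsto_zero (by omega : 0 < -m)).comp h4
  have h6 : Tendsto (fun q : ℝ × ℝ => (q.2 : ℂ) ^ (-n)) (𝓝[om] ((0 : ℝ), y)) (𝓝 ((y : ℂ) ^ (-n))) := by
    have h7 : ContinuousAt (fun q : ℝ × ℝ => (q.2 : ℂ) ^ (-n)) ((0 : ℝ), y) := by
      apply ContinuousAt.zpow₀
      · fun_prop
      · left; simp; linarith
    exact h7.tendsto.mono_left nhdsWithin_le_nhds
  have := (h3.mul h6).mul h1
  rw [zero_mul, zero_mul] at this
  exact this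

theorem mode_lim2 {g : ℂ × ℂ → ℂ} (hg : ContinuousOn g Om) {m n : ℤ} (hn : n < 0) {x : ℝ}
    (hx1 : 0 < x) (hx2 : x < 2) : Tendsto (mode g m n) (𝓝[om] (x, (0 : ℝ))) (𝓝 0) := by
  have hmem : emb (x, 0) ∈ Om := by
    rw [mem_Om]
    simp only [emb_apply, Complex.norm_real, Real.norm_eq_abs, abs_of_pos hx1,
      abs_zero]
    exact ⟨by nlinarith, Or.inl hx1⟩
  have h1 : Tendsto (fun q => hat g m n (emb q)) (𝓝[om] (x, (0 : ℝ))) (𝓝 (hat g m n (emb (x, 0)))) := by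
    have h2 := ((hat_cont isOpen_Om act_inv hg m n).continuousAt (isOpen_Om.mem_nhds hmem)).tendsto
    exact h2.comp ((emb.continuous.tendsto _).mono_left nhdsWithin_le_nhds)
  have h3 : Tendsto (fun q : ℝ × ℝ => (q.2 : ℂ) ^ (-n)) (𝓝[om] (x, (0 : ℝ))) (𝓝 0) := by
    have h4 : Tendsto (fun q : ℝ × ℝ => (q.2 : ℂ)) (𝓝[om] (x, (0 : ℝ))) (𝓝 0) := by
      have : Continuous (fun q : ℝ × ℝ => (q.2 : ℂ)) := by fun_prop
      have h5 := this.tendsto (x, (0 : ℝ))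
      simp only [Complex.ofReal_zero] at h5
      exact h5.mono_left nhdsWithin_le_nhds
    exact (zpow_tendsto_zero (by omega : 0 < -n)).comp h4
  have h6 : Tendsto (fun q : ℝ × ℝ => (q.1 : ℂ) ^ (-m)) (𝓝[om] (x, (0 : ℝ))) (𝓝 ((x : ℂ) ^ (-m))) := by
    have h7 : ContinuousAt (fun q : ℝ × ℝ => (q.1 : ℂ) ^ (-m)) (x, (0 : ℝ)) := by
      apply ContinuousAt.zpow₀
      · fun_prop
      · left; simp; linarith
    exact h7.tendsto.mono_left nhdsWithin_le_nhds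
  have := (h6.mul h3).mul h1
  rw [mul_zero, zero_mul] at this
  exact this

/-- norm identity -/
theorem norm_mode_gen (m n : ℤ) {q : ℝ × ℝ} (hq : q ∈ om) (c : ℂ) :
    ENNReal.ofReal (4 * π ^ 2) *
      ENNReal.ofReal (‖(q.1 : ℂ) ^ (-m) * (q.2 : ℂ) ^ (-n) * c‖ ^ 2 * V m n q) = wt q * ‖c‖ₑ ^ 2 := by
  have hx : 0 < q.1 := hq.1
  have hy : 0 < q.2 := hq.2.1
  unfold wt
  rw [← ofReal_norm, ← ENNReal.ofReal_pow (norm_nonneg _), ← ENNReal.ofReal_mul (by positivity),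
    ← ENNReal.ofReal_mul (by positivity), ← ENNReal.ofReal_mul (by positivity)]
  congr 1
  rw [norm_mul, norm_mul, norm_zpow, norm_zpow, Complex.norm_real, Complex.norm_real,
    Real.norm_eq_abs, Real.norm_eq_abs, abs_of_pos hx, abs_of_pos hy]
  unfold V
  have e1 : q.1 ^ (2 * m + 1) = (q.1 ^ m) ^ 2 * q.1 := by
    rw [zpow_add₀ hx.ne', zpow_one, mul_comm 2 m, zpow_mul]; norm_cast
  have e2 : q.2 ^ (2 * n + 1) = (q.2 ^ n) ^ 2 * q.2 := by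
    rw [zpow_add₀ hy.ne', zpow_one, mul_comm 2 n, zpow_mul]; norm_cast
  rw [e1, e2, zpow_neg, zpow_neg]
  have h1 : q.1 ^ m ≠ 0 := (zpow_pos hx m).ne'
  have h2 : q.2 ^ n ≠ 0 := (zpow_pos hy n).ne'
  field_simp
  ring

/-- the per-mode consequence of the weighted inequality. -/
theorem mode_ineq {C : ℝ≥0} (hW : WProp C) {g : ℂ × ℂ → ℂ} (hg : ContDiffOn ℝ 1 g Om)
    (m n : ℤ) (hfin : ∫⁻ q in om, wt q * ‖hat g m n (emb q)‖ₑ ^ 2 ≠ ⊤) :
    ∃ c : ℂ, (m < 0 ∨ n < 0 → c = 0) ∧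
      ∫⁻ q in om, wt q * ‖hat g m n (emb q) - c * (q.1 : ℂ) ^ m * (q.2 : ℂ) ^ n‖ₑ ^ 2 ≤
        4 * C * ((∫⁻ q in om, wt q * ‖hat (fun p => L1 (fderiv ℝ g p)) (m + 1) n (emb q)‖ₑ ^ 2) +
          ∫⁻ q in om, wt q * ‖hat (fun p => L2 (fderiv ℝ g p)) m (n + 1) (emb q)‖ₑ ^ 2) := by
  have h4π : (ENNReal.ofReal (4 * π ^ 2)) ≠ ⊤ := ENNReal.ofReal_ne_top
  have h4π0 : (ENNReal.ofReal (4 * π ^ 2)) ≠ 0 := by
    rw [ne_eq, ENNReal.ofReal_eq_zero, not_le]; positivity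
  have key : ∀ (c : ℂ), ENNReal.ofReal (4 * π ^ 2) *
      ∫⁻ p in om, ENNReal.ofReal (‖mode g m n p - c‖ ^ 2 * V m n p) =
      ∫⁻ q in om, wt q * ‖hat g m n (emb q) - c * (q.1 : ℂ) ^ m * (q.2 : ℂ) ^ n‖ₑ ^ 2 := by
    intro c
    rw [← lintegral_const_mul' _ _ h4π]
    apply setLIntegral_congr_fun isOpen_om.measurableSet
    intro q hq
    dsimp only
    rw [← norm_mode_gen m n hq]
    have hx : (q.1 : ℂ) ≠ 0 := by exact_mod_cast hq.1.ne'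
    have hy : (q.2 : ℂ) ≠ 0 := by exact_mod_cast hq.2.1.ne'
    have h1 : (q.1 : ℂ) ^ m ≠ 0 := zpow_ne_zero m hx
    have h2 : (q.2 : ℂ) ^ n ≠ 0 := zpow_ne_zero n hy
    have h3 : mode g m n q - c = (q.1 : ℂ) ^ (-m) * (q.2 : ℂ) ^ (-n) *
        (hat g m n (emb q) - c * (q.1 : ℂ) ^ m * (q.2 : ℂ) ^ n) := by
      unfold mode
      rw [zpow_neg, zpow_neg]
      field_simp
    rw [h3]
  have hfin' : ∫⁻ p in om, ENNReal.ofReal (‖mode g m n p‖ ^ 2 * V m n p) ≠ ⊤ := by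
    have h1 := key 0
    simp only [sub_zero, zero_mul] at h1
    intro h2
    rw [h2, ENNReal.mul_top h4π0] at h1
    exact hfin h1.symm
  obtain ⟨c, hc0, hc⟩ := hW m n (mode g m n) (mode_contDiffOn hg m n)
    (fun hm y h1 h2 => mode_lim1 hg.continuousOn hm h1 h2)
    (fun hn x h1 h2 => mode_lim2 hg.continuousOn hn h1 h2) hfin'
  refine ⟨c, hc0, ?_⟩
  rw [← key c]
  have hder : ENNReal.ofReal (4 * π ^ 2) * ∫⁻ p in om, ENNReal.ofReal
          ((‖fderiv ℝ (mode g m n) p (1, 0)‖ ^ 2 + ‖fderiv ℝ (mode g m n) p (0, 1)‖ ^ 2) * V m n p) =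
      4 * ((∫⁻ q in om, wt q * ‖hat (fun p => L1 (fderiv ℝ g p)) (m + 1) n (emb q)‖ₑ ^ 2) +
          ∫⁻ q in om, wt q * ‖hat (fun p => L2 (fderiv ℝ g p)) m (n + 1) (emb q)‖ₑ ^ 2) := by
    have hfd : ContinuousOn (fderiv ℝ g) Om := hg.continuousOn_fderiv_of_isOpen isOpen_Om le_rfl
    have hc1 : ContinuousOn (fun p => L1 (fderiv ℝ g p)) Om := L1.continuous.comp_continuousOn hfd
    have hm1 : AEMeasurable (fun q => wt q * ‖hat (fun p => L1 (fderiv ℝ g p)) (m + 1) n (emb q)‖ₑ ^ 2)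
        (volume.restrict om) := by
      have h1 : ContinuousOn (fun q => hat (fun p => L1 (fderiv ℝ g p)) (m + 1) n (emb q)) om :=
        (hat_cont isOpen_Om act_inv hc1 _ n).comp emb.continuous.continuousOn (fun q hq => emb_om hq)
      exact measurable_wt.aemeasurable.mul
        ((h1.aemeasurable isOpen_om.measurableSet).enorm.pow_const 2)
    rw [← lintegral_add_left' hm1, ← lintegral_const_mul' _ _ h4π,
      ← lintegral_const_mul' _ _ (by norm_num : (4 : ℝ≥0∞) ≠ ⊤)]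
    apply setLIntegral_congr_fun isOpen_om.measurableSet
    intro q hq
    dsimp only
    obtain ⟨-, h1, h2⟩ := mode_dx isOpen_Om act_inv hg m n hq.1.ne' hq.2.1.ne' (emb_om hq)
    rw [h1, h2, ← norm_mode_gen m n hq, ← norm_mode_gen m n hq]
    have hV : 0 ≤ V m n q := by
      unfold V
      have := hq.1; have := hq.2.1
      positivity
    rw [← mul_add, ← ENNReal.ofReal_add (by positivity) (by positivity)]
    have h4 : ENNReal.ofReal 4 = 4 := by norm_num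
    rw [norm_mul, norm_mul (2 : ℂ), Complex.norm_two]
    set a := ‖(q.1 : ℂ) ^ (-m) * (q.2 : ℂ) ^ (-n) * hat (fun p => L1 (fderiv ℝ g p)) (m + 1) n (emb q)‖
    set b := ‖(q.1 : ℂ) ^ (-m) * (q.2 : ℂ) ^ (-n) * hat (fun p => L2 (fderiv ℝ g p)) m (n + 1) (emb q)‖
    have hX : ((2 * a) ^ 2 + (2 * b) ^ 2) * V m n q = 4 * (a ^ 2 * V m n q + b ^ 2 * V m n q) := by
      ring
    have h5 : ENNReal.ofReal (4 * (a ^ 2 * V m n q + b ^ 2 * V m n q)) =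
        4 * ENNReal.ofReal (a ^ 2 * V m n q + b ^ 2 * V m n q) := by
      rw [ENNReal.ofReal_mul (by norm_num : (0 : ℝ) ≤ 4), h4]
    rw [hX, h5, mul_left_comm]
  calc ENNReal.ofReal (4 * π ^ 2) * ∫⁻ p in om, ENNReal.ofReal (‖mode g m n p - c‖ ^ 2 * V m n p)
      ≤ ENNReal.ofReal (4 * π ^ 2) * (C * ∫⁻ p in om, ENNReal.ofReal
          ((‖fderiv ℝ (mode g m n) p (1, 0)‖ ^ 2 + ‖fderiv ℝ (mode g m n) p (0, 1)‖ ^ 2) * V m n p)) := by
        gcongr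
    _ = C * (ENNReal.ofReal (4 * π ^ 2) * ∫⁻ p in om, ENNReal.ofReal
          ((‖fderiv ℝ (mode g m n) p (1, 0)‖ ^ 2 + ‖fderiv ℝ (mode g m n) p (0, 1)‖ ^ 2) * V m n p)) := by
        ring
    _ = _ := by rw [hder]; ring

end H51.HT
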