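import Mathlib

open MeasureTheory Set Filter Topology
open scoped ENNReal NNReal ContDiff

namespace H51.HT

variable {P : Type*} [NormedAddCommGroup P] [NormedSpace ℝ P] [FiniteDimensional ℝ P]
  {K : Type*} [TopologicalSpace K] [CompactSpace K] [MeasurableSpace K] [BorelSpace K]
  [SecondCountableTopology K]
  {ν : Measure K} [IsFiniteMeasure ν] {H : Type*} [NormedAddCommGroup H] [NormedSpace ℝ H]

omit [BorelSpace K] [SecondCountableTopology K] [MeasurableSpace K] [NormedSpace ℝ H] in
theorem locBound {U : Set P} (hU : IsOpen U) {A : P → K → H}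
    (hA : ContinuousOn (fun q : P × K => A q.1 q.2) (U ×ˢ univ)) {p₀ : P} (hp : p₀ ∈ U) :
    ∃ r > 0, Metric.closedBall p₀ r ⊆ U ∧ ∃ C : ℝ, ∀ p ∈ Metric.closedBall p₀ r, ∀ k, ‖A p k‖ ≤ C := by
  obtain ⟨r, hr, hrU⟩ := Metric.nhds_basis_closedBall.mem_iff.1 (hU.mem_nhds hp)
  refine ⟨r, hr, hrU, ?_⟩
  have : ProperSpace P := FiniteDimensional.proper_rclike ℝ P
  have hc : IsCompact (Metric.closedBall p₀ r ×ˢ (univ : Set K)) :=
    (isCompact_closedBall p₀ r).prod isCompact_univ
  obtain ⟨C, hC⟩ := hc.exists_bound_of_continuousOn (hA.mono (prod_mono hrU subset_rfl))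
  exact ⟨C, fun p hp k => hC (p, k) ⟨hp, mem_univ _⟩⟩

omit [FiniteDimensional ℝ P] [NormedSpace ℝ P] [CompactSpace K] [MeasurableSpace K] [BorelSpace K] [SecondCountableTopology K] [NormedSpace ℝ H] in
theorem cont_slice {U : Set P} {A : P → K → H}
    (hA : ContinuousOn (fun q : P × K => A q.1 q.2) (U ×ˢ univ)) {p : P} (hp : p ∈ U) :
    Continuous (A p) := by
  have h1 : Continuous (fun k : K => (p, k)) := by fun_prop
  have := hA.comp_continuous h1 (fun k => ⟨hp, mem_univ _⟩)
  exact this

omit [FiniteDimensional ℝ P] [NormedSpace ℝ P] [CompactSpace K] [MeasurableSpace K] [BorelSpace K] [SecondCountableTopology K] [NormedSpace ℝ H] in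
theorem cont_slice' {U : Set P} {A : P → K → H}
    (hA : ContinuousOn (fun q : P × K => A q.1 q.2) (U ×ˢ univ)) (k : K) :
    ContinuousOn (fun p => A p k) U := by
  have h1 : Continuous (fun p : P => (p, k)) := by fun_prop
  exact hA.comp h1.continuousOn (fun p hp => ⟨hp, mem_univ _⟩)

theorem PI_cont {U : Set P} (hU : IsOpen U) {A : P → K → H}
    (hA : ContinuousOn (fun q : P × K => A q.1 q.2) (U ×ˢ univ)) :
    ContinuousOn (fun p => ∫ k, A p k ∂ν) U := by
  intro p₀ hp
  obtain ⟨r, hr, hrU, C, hC⟩ := locBound hU hA hp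
  apply ContinuousAt.continuousWithinAt
  apply continuousAt_of_dominated (bound := fun _ => C)
  · filter_upwards [hU.mem_nhds hp] with p hp
    exact (cont_slice hA hp).aestronglyMeasurable
  · filter_upwards [Metric.closedBall_mem_nhds p₀ hr] with p hp
    exact Eventually.of_forall fun k => hC p hp k
  · exact integrable_const _
  · exact Eventually.of_forall fun k => (cont_slice' hA k).continuousAt (hU.mem_nhds hp)

theorem PI_deriv [CompleteSpace H] {U : Set P} (hU : IsOpen U) {A : P → K → H} {A' : P → K → P →L[ℝ] H}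
    (hA : ContinuousOn (fun q : P × K => A q.1 q.2) (U ×ˢ univ))
    (hA' : ContinuousOn (fun q : P × K => A' q.1 q.2) (U ×ˢ univ))
    (hd : ∀ p ∈ U, ∀ k, HasFDerivAt (fun p => A p k) (A' p k) p) {p₀ : P} (hp : p₀ ∈ U) :
    HasFDerivAt (fun p => ∫ k, A p k ∂ν) (∫ k, A' p₀ k ∂ν) p₀ := by
  obtain ⟨r, hr, hrU, C, hC⟩ := locBound hU hA' hp
  apply hasFDerivAt_integral_of_dominated_of_fderiv_le (Metric.closedBall_mem_nhds p₀ hr)
    (bound := fun _ => C)
  · filter_upwards [hU.mem_nhds hp] with p hp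
    exact (cont_slice hA hp).aestronglyMeasurable
  · exact (cont_slice hA hp).integrable_of_hasCompactSupport (HasCompactSupport.of_compactSpace _)
  · exact (cont_slice hA' hp).aestronglyMeasurable
  · exact Eventually.of_forall fun k p hp => hC p hp k
  · exact integrable_const _
  · exact Eventually.of_forall fun k p hp => hd p (hrU hp) k

end H51.HT
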