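import Pool.Agent.H51.Hartogs.Torus2

open MeasureTheory Set Filter Topology AddCircle
open scoped ENNReal NNReal ContDiff Real ComplexConjugate

namespace H51.HT

/-- 1D Parseval in `ℝ≥0∞`. -/
theorem parseval1 {h : Ci → ℂ} (hh : Continuous h) :
    ∑' n : ℤ, ‖∫ a, fourier (-n) a * h a ∂haarAddCircle‖ₑ ^ 2 = ∫⁻ a, ‖h a‖ₑ ^ 2 ∂haarAddCircle := by
  have hm : MemLp h 2 (haarAddCircle (T := 2 * π)) :=
    hh.memLp_of_hasCompactSupport (HasCompactSupport.of_compactSpace _)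
  have h1 := hasSum_sq_fourierCoeff (hm.toLp h)
  have h2 : ∀ n, fourierCoeff (hm.toLp h) n = ∫ a, fourier (-n) a * h a ∂haarAddCircle := by
    intro n
    rw [fourierCoeff_congr_ae hm.coeFn_toLp]
    rfl
  have h3 : ∫ t, ‖(hm.toLp h) t‖ ^ 2 ∂haarAddCircle = ∫ t, ‖h t‖ ^ 2 ∂haarAddCircle := by
    apply integral_congr_ae
    filter_upwards [hm.coeFn_toLp] with t ht
    rw [ht]
  rw [h3] at h1
  simp only [h2] at h1
  have h4 := h1.tsum_eq
  have h5 : ∫⁻ a, ‖h a‖ₑ ^ 2 ∂haarAddCircle = ENNReal.ofReal (∫ t, ‖h t‖ ^ 2 ∂haarAddCircle) := by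
    rw [ofReal_integral_eq_lintegral_ofReal]
    · congr 1; funext a
      rw [← ofReal_norm, ENNReal.ofReal_pow (norm_nonneg _)]
    · exact (hh.norm.pow 2).integrable_of_hasCompactSupport (HasCompactSupport.of_compactSpace _)
    · exact Eventually.of_forall fun a => by positivity
  rw [h5, ← h4, ENNReal.ofReal_tsum_of_nonneg (fun n => by positivity) h1.summable]
  congr 1; funext n
  rw [← ofReal_norm, ENNReal.ofReal_pow (norm_nonneg _)]

/-- 2D Parseval. -/
theorem parseval2 {h : Ci × Ci → ℂ} (hh : Continuous h) :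
    ∑' m : ℤ, ∑' n : ℤ, ‖∫ k, (fourier (-m) k.1 * fourier (-n) k.2) * h k ∂κ‖ₑ ^ 2 =
      ∫⁻ k, ‖h k‖ₑ ^ 2 ∂κ := by
  have hint : ∀ m n : ℤ, Integrable (fun k : Ci × Ci => (fourier (-m) k.1 * fourier (-n) k.2) * h k)
      (haarAddCircle.prod haarAddCircle) := by
    intro m n
    have : Continuous (fun k : Ci × Ci => (fourier (-m) k.1 * fourier (-n) k.2) * h k) := by fun_prop
    exact this.integrable_of_hasCompactSupport (HasCompactSupport.of_compactSpace _)
  have h1 : ∀ m n : ℤ, ∫ k, (fourier (-m) k.1 * fourier (-n) k.2) * h k ∂κ =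
      ∫ a, fourier (-m) a * ∫ b, fourier (-n) b * h (a, b) ∂haarAddCircle ∂haarAddCircle := by
    intro m n
    unfold κ
    rw [integral_prod _ (hint m n)]
    congr 1; funext a
    rw [← integral_const_mul]
    congr 1; funext b
    ring
  have hc : ∀ n : ℤ, Continuous (fun a : Ci => ∫ b, fourier (-n) b * h (a, b) ∂haarAddCircle) := by
    intro n
    have h0 := continuous_parametric_integral_of_continuous (μ := haarAddCircle (T := 2 * π))
      (f := fun (a : Ci) (b : Ci) => fourier (-n) b * h (a, b)) (s := (univ : Set Ci))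
      (by
        have : Continuous (fun p : Ci × Ci => fourier (-n) p.2 * h (p.1, p.2)) := by fun_prop
        exact this) isCompact_univ
    simpa using h0
  have h2 : ∑' m : ℤ, ∑' n : ℤ, ‖∫ k, (fourier (-m) k.1 * fourier (-n) k.2) * h k ∂κ‖ₑ ^ 2 =
      ∑' n : ℤ, ∑' m : ℤ, ‖∫ a, fourier (-m) a *
        ∫ b, fourier (-n) b * h (a, b) ∂haarAddCircle ∂haarAddCircle‖ₑ ^ 2 := by
    rw [ENNReal.tsum_comm]
    simp only [h1]
  rw [h2]
  have h3 : ∀ n : ℤ, ∑' m : ℤ, ‖∫ a, fourier (-m) a *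
        ∫ b, fourier (-n) b * h (a, b) ∂haarAddCircle ∂haarAddCircle‖ₑ ^ 2 =
      ∫⁻ a, ‖∫ b, fourier (-n) b * h (a, b) ∂haarAddCircle‖ₑ ^ 2 ∂haarAddCircle := fun n =>
    parseval1 (hc n)
  simp only [h3]
  rw [← lintegral_tsum (fun n => ((hc n).enorm.measurable.pow_const 2).aemeasurable)]
  unfold κ
  rw [lintegral_prod _ ((hh.enorm.measurable.pow_const 2).aemeasurable)]
  congr 1; funext a
  exact parseval1 (by fun_prop)

end H51.HT
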