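import Pool.Agent.H51.Hartogs.Parseval

open MeasureTheory Set Filter Topology AddCircle
open scoped ENNReal NNReal ContDiff Real ComplexConjugate

namespace H51.HT

theorem measurable_toCircle : Measurable (fun a : Ci => (a.toCircle : ℂ)) :=
  (continuous_subtype_val.comp AddCircle.continuous_toCircle).measurable

/-- polar coordinates with the angle on the circle. -/
theorem polar1 {f : ℂ → ℝ≥0∞} (hf : Measurable f) :
    ∫⁻ z, f z = ∫⁻ r in Ioi (0 : ℝ), ENNReal.ofReal (2 * π * r) *
      ∫⁻ a : Ci, f ((a.toCircle : ℂ) * r) ∂haarAddCircle := by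
  rw [← Complex.lintegral_comp_polarCoord_symm]
  have ht : polarCoord.target = Ioi (0 : ℝ) ×ˢ Ioo (-π) π := rfl
  rw [ht, Measure.volume_eq_prod, ← Measure.prod_restrict, lintegral_prod]
  · apply lintegral_congr
    intro r
    simp only [smul_eq_mul]
    rw [lintegral_const_mul]
    · have h1 : ∫⁻ θ in Ioo (-π) π, f (Complex.polarCoord.symm (r, θ)) =
          ∫⁻ θ in Ioc (-π) (-π + 2 * π), (fun a : Ci => f ((a.toCircle : ℂ) * r)) (θ : Ci) := by
        have h2 : (-π + 2 * π) = π := by ring
        rw [h2, setLIntegral_congr Ioo_ae_eq_Ioc]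
        apply lintegral_congr
        intro θ
        simp only [toCircle_real]
        congr 1
        rw [Complex.polarCoord_symm_apply, Complex.exp_mul_I]
        push_cast
        ring
      have h3 := AddCircle.lintegral_preimage (2 * π) (-π) (fun a : Ci => f ((a.toCircle : ℂ) * r))
      rw [h1, h3, volume_eq_smul_haarAddCircle, lintegral_smul_measure,
        smul_eq_mul, ← mul_assoc]
      congr 1
      rw [mul_comm (ENNReal.ofReal r), ← ENNReal.ofReal_mul (by positivity)]
    · apply hf.comp
      exact (by
        have : Continuous fun θ : ℝ => Complex.polarCoord.symm (r, θ) := by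
          simp only [Complex.polarCoord_symm_apply]
          fun_prop
        exact this.measurable)
  · apply Measurable.aemeasurable
    have h5 : Measurable fun p : ℝ × ℝ => f (Complex.polarCoord.symm p) := by
      apply hf.comp
      have : Continuous fun p : ℝ × ℝ => Complex.polarCoord.symm p := by
        simp only [Complex.polarCoord_symm_apply]
        fun_prop
      exact this.measurable
    exact (by fun_prop : Measurable fun p : ℝ × ℝ => ENNReal.ofReal p.1).mul h5

/-- bipolar coordinates. -/
theorem polar2 {f : ℂ × ℂ → ℝ≥0∞} (hf : Measurable f) :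
    ∫⁻ p, f p = ∫⁻ q in Ioi (0 : ℝ) ×ˢ Ioi (0 : ℝ),
      ENNReal.ofReal (2 * π * q.1) * ENNReal.ofReal (2 * π * q.2) * ∫⁻ k, f (act k (emb q)) ∂κ := by
  have hm : Measurable (fun x : (Ci × Ci) × (ℝ × ℝ) => f (act x.1 (emb x.2))) := by
    apply hf.comp
    simp only [act, emb_apply]
    have h1 := measurable_toCircle
    fun_prop
  rw [Measure.volume_eq_prod, Measure.volume_eq_prod, ← Measure.prod_restrict,
    lintegral_prod _ hf.aemeasurable]
  rw [lintegral_prod]
  · rw [polar1 (Measurable.lintegral_prod_right' hf)]
    apply lintegral_congr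
    intro r
    have h1 : ∀ s : ℝ, ENNReal.ofReal (2 * π * r) * ENNReal.ofReal (2 * π * s) *
        ∫⁻ k, f (act k (emb (r, s))) ∂κ = ENNReal.ofReal (2 * π * r) * (
          ∫⁻ a : Ci, ENNReal.ofReal (2 * π * s) * ∫⁻ b : Ci,
            f ((a.toCircle : ℂ) * r, (b.toCircle : ℂ) * s) ∂haarAddCircle ∂haarAddCircle) := by
      intro s
      rw [mul_assoc]
      congr 1
      unfold κ
      rw [lintegral_prod]
      · rw [lintegral_const_mul]
        · simp [act]
        · have h2 : Measurable (fun x : Ci × Ci => f ((x.1.toCircle : ℂ) * r, (x.2.toCircle : ℂ) * s)) := by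
            apply hf.comp
            have h1 := measurable_toCircle
            fun_prop
          exact Measurable.lintegral_prod_right' h2
      · exact (hm.comp (by fun_prop : Measurable fun k : Ci × Ci => (k, (r, s)))).aemeasurable
    simp only [h1]
    rw [lintegral_const_mul]
    · congr 1
      symm
      rw [lintegral_lintegral_swap]
      · apply lintegral_congr
        intro a
        exact (polar1 (hf.comp (by fun_prop))).symm
      · apply Measurable.aemeasurable
        have h2 : Measurable (fun x : (ℝ × Ci) × Ci =>
            f ((x.1.2.toCircle : ℂ) * r, (x.2.toCircle : ℂ) * x.1.1)) := by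
          apply hf.comp
          have h1 := measurable_toCircle
          fun_prop
        have h3 := Measurable.lintegral_prod_right' (ν := haarAddCircle (T := 2 * π)) h2
        exact (by fun_prop : Measurable fun x : ℝ × Ci => ENNReal.ofReal (2 * π * x.1)).mul h3
    · have h2 : Measurable (fun x : (ℝ × Ci) × Ci =>
            f ((x.1.2.toCircle : ℂ) * r, (x.2.toCircle : ℂ) * x.1.1)) := by
          apply hf.comp
          have h1 := measurable_toCircle
          fun_prop
      have h3 := Measurable.lintegral_prod_right' (ν := haarAddCircle (T := 2 * π)) h2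
      have h4 := (by fun_prop : Measurable fun x : ℝ × Ci => ENNReal.ofReal (2 * π * x.1)).mul h3
      exact Measurable.lintegral_prod_right' (ν := haarAddCircle (T := 2 * π)) h4
  · apply Measurable.aemeasurable
    refine Measurable.mul (by fun_prop) ?_
    have h3 := Measurable.lintegral_prod_left' (μ := κ) hm
    exact h3

end H51.HT
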