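import Pool.Agent.H51.Hartogs.Modes

open MeasureTheory Set Filter Topology AddCircle
open scoped ENNReal NNReal ContDiff Real ComplexConjugate

namespace H51.HT

open H51.Hartogs (om V)

theorem toCircle_pow (a : Ci) (k : ℕ) : ((a.toCircle : ℂ)) ^ k = fourier (k : ℤ) a := by
  rw [fourier_apply, AddCircle.toCircle_zsmul]
  simp

theorem hat_mono (k l : ℕ) (m n : ℤ) (p : ℂ × ℂ) :
    hat (fun p => p.1 ^ k * p.2 ^ l) m n p =
      if m = k ∧ n = l then p.1 ^ k * p.2 ^ l else 0 := by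
  unfold hat
  have h1 : ∀ x : Ci × Ci, fourier (-m) x.1 * fourier (-n) x.2 * ((act x p).1 ^ k * (act x p).2 ^ l) =
      (p.1 ^ k * p.2 ^ l) * ((fourier (-m) x.1 * fourier (k : ℤ) x.1) *
        (fourier (-n) x.2 * fourier (l : ℤ) x.2)) := by
    intro x
    simp only [act]
    rw [mul_pow, mul_pow, toCircle_pow, toCircle_pow]
    ring
  simp only [h1]
  rw [integral_const_mul]
  unfold κ
  rw [integral_prod_mul (fun a : Ci => (fourier (-m) a * fourier (k : ℤ) a : ℂ))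
    (fun b : Ci => (fourier (-n) b * fourier (l : ℤ) b : ℂ))]
  have h2 : ∀ (m k : ℤ), ∫ a : Ci, (fourier (-m) a * fourier k a : ℂ) ∂haarAddCircle =
      if m = k then 1 else 0 := by
    intro m k
    have h3 := congrFun (fourierCoeff_fourier (T := 2 * π) k) m
    rw [Pi.single_apply] at h3
    rw [← h3]
    rfl
  rw [h2, h2]
  by_cases hm : m = k <;> by_cases hn : n = l <;> simp [hm, hn]

/-- finite holomorphic polynomials -/
noncomputable def poly (F : Finset (ℤ × ℤ)) (c : ℤ × ℤ → ℂ) (p : ℂ × ℂ) : ℂ :=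
  ∑ μ ∈ F, c μ * (p.1 ^ μ.1.toNat * p.2 ^ μ.2.toNat)

theorem poly_contDiff (F : Finset (ℤ × ℤ)) (c : ℤ × ℤ → ℂ) : ContDiff ℂ ⊤ (poly F c) := by
  unfold poly
  fun_prop

theorem poly_contDiffR (F : Finset (ℤ × ℤ)) (c : ℤ × ℤ → ℂ) : ContDiff ℝ ∞ (poly F c) :=
  ((poly_contDiff F c).restrict_scalars ℝ).of_le le_top

theorem hat_sub {g h : ℂ × ℂ → ℂ} (hg : ContinuousOn g Om) (hh : ContinuousOn h Om) (m n : ℤ)
    {p : ℂ × ℂ} (hp : p ∈ Om) : hat (fun p => g p - h p) m n p = hat g m n p - hat h m n p := by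
  unfold hat
  have hc : ∀ g : ℂ × ℂ → ℂ, ContinuousOn g Om →
      Integrable (fun k : Ci × Ci => (fourier (-m) k.1 * fourier (-n) k.2) * g (act k p)) κ := by
    intro g hg
    have h2 : Continuous (fun k : Ci × Ci => act k p) :=
      continuous_act.comp (by fun_prop : Continuous fun k : Ci × Ci => (p, k))
    have h3 : Continuous (fun k : Ci × Ci => g (act k p)) :=
      hg.comp_continuous h2 (fun k => act_inv k _ hp)
    have h5 : Continuous (fun k : Ci × Ci => (fourier (-m) k.1 * fourier (-n) k.2 : ℂ)) := by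
      fun_prop
    have h4 : Continuous (fun k : Ci × Ci => (fourier (-m) k.1 * fourier (-n) k.2) * g (act k p)) :=
      h5.mul h3
    exact h4.integrable_of_hasCompactSupport (HasCompactSupport.of_compactSpace _)
  rw [← integral_sub (hc g hg) (hc h hh)]
  congr 1; funext k; ring

theorem hat_poly (F : Finset (ℤ × ℤ)) {c : ℤ × ℤ → ℂ} (hc : ∀ m n, m < 0 ∨ n < 0 → c (m, n) = 0)
    (m n : ℤ) (q : ℝ × ℝ) :
    hat (poly F c) m n (emb q) =
      if (m, n) ∈ F then c (m, n) * (q.1 : ℂ) ^ m * (q.2 : ℂ) ^ n else 0 := by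
  have h1 : hat (poly F c) m n (emb q) =
      ∑ μ ∈ F, c μ * hat (fun p => p.1 ^ μ.1.toNat * p.2 ^ μ.2.toNat) m n (emb q) := by
    unfold hat poly
    simp only [Finset.mul_sum]
    rw [integral_finsetSum]
    · apply Finset.sum_congr rfl
      intro μ _
      rw [← integral_const_mul]
      congr 1; funext k; ring
    · intro μ _
      have h4 : Continuous (fun k : Ci × Ci => (fourier (-m) k.1 * fourier (-n) k.2) *
        (c μ * ((act k (emb q)).1 ^ μ.1.toNat * (act k (emb q)).2 ^ μ.2.toNat))) := by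
        have h2 : Continuous (fun k : Ci × Ci => act k (emb q)) :=
          continuous_act.comp (by fun_prop : Continuous fun k : Ci × Ci => (emb q, k))
        fun_prop
      exact h4.integrable_of_hasCompactSupport (HasCompactSupport.of_compactSpace _)
  rw [h1]
  simp only [hat_mono]
  by_cases hmn : m < 0 ∨ n < 0
  · rw [hc m n hmn, Finset.sum_eq_zero]
    · simp
    · intro μ _
      rw [if_neg, mul_zero]
      rintro ⟨h2, h3⟩
      rcases hmn with h | h <;> omega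
  · push Not at hmn
    obtain ⟨hm, hn⟩ := hmn
    have h2 : ∀ μ ∈ F, c μ * (if m = ↑μ.1.toNat ∧ n = ↑μ.2.toNat then
        (emb q).1 ^ μ.1.toNat * (emb q).2 ^ μ.2.toNat else 0) =
        if (m, n) = μ then c (m, n) * (q.1 : ℂ) ^ m * (q.2 : ℂ) ^ n else 0 := by
      rintro ⟨a, b⟩ _
      by_cases ha : a < 0 ∨ b < 0
      · rw [hc a b ha, zero_mul, if_neg]
        rintro h
        rw [Prod.mk.injEq] at h
        rcases ha with h' | h' <;> omega
      · push Not at ha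
        by_cases hab : m = a ∧ n = b
        · obtain ⟨rfl, rfl⟩ := hab
          rw [if_pos ⟨by omega, by omega⟩, if_pos rfl]
          have e1 : (q.1 : ℂ) ^ m = (q.1 : ℂ) ^ m.toNat := by
            conv_lhs => rw [← Int.toNat_of_nonneg hm]
            rw [zpow_natCast]
          have e2 : (q.2 : ℂ) ^ n = (q.2 : ℂ) ^ n.toNat := by
            conv_lhs => rw [← Int.toNat_of_nonneg hn]
            rw [zpow_natCast]
          rw [e1, e2]
          simp [mul_assoc]
        · rw [if_neg, if_neg, mul_zero]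
          · intro h; rw [Prod.mk.injEq] at h; exact hab h
          · rintro ⟨h, h'⟩; apply hab; dsimp only at h h'; omega
    rw [Finset.sum_congr rfl h2, Finset.sum_ite_eq]

/-- **Main estimate for smooth functions.** -/
theorem smooth_est {C : ℝ≥0} (hW : WProp C) {g : ℂ × ℂ → ℂ} (hg : ContDiffOn ℝ 1 g Om)
    (hfin : ∫⁻ p in Om, ‖g p‖ₑ ^ 2 ≠ ⊤) {ε : ℝ≥0∞} (hε : 0 < ε) :
    ∃ (F : Finset (ℤ × ℤ)) (c : ℤ × ℤ → ℂ),
      ∫⁻ p in Om, ‖g p - poly F c p‖ₑ ^ 2 ≤
        4 * C * ((∫⁻ p in Om, ‖L1 (fderiv ℝ g p)‖ₑ ^ 2) + ∫⁻ p in Om, ‖L2 (fderiv ℝ g p)‖ₑ ^ 2) + ε := by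
  classical
  have hfd : ContinuousOn (fderiv ℝ g) Om := hg.continuousOn_fderiv_of_isOpen isOpen_Om le_rfl
  have hc1 : ContinuousOn (fun p => L1 (fderiv ℝ g p)) Om := L1.continuous.comp_continuousOn hfd
  have hc2 : ContinuousOn (fun p => L2 (fderiv ℝ g p)) Om := L2.continuous.comp_continuousOn hfd
  set A : ℤ × ℤ → ℝ≥0∞ := fun μ => ∫⁻ q in om, wt q * ‖hat g μ.1 μ.2 (emb q)‖ₑ ^ 2 with hA
  have hAsum : ∑' μ, A μ = ∫⁻ p in Om, ‖g p‖ₑ ^ 2 := by
    rw [lint_Om_hat hg.continuousOn, ENNReal.tsum_prod']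
  have hAfin : ∀ μ, A μ ≠ ⊤ := fun μ => by
    have := (ENNReal.le_tsum (f := A) μ).trans_lt (lt_top_iff_ne_top.2 (hAsum ▸ hfin))
    exact this.ne
  have hch := fun μ : ℤ × ℤ => mode_ineq hW hg μ.1 μ.2 (hAfin μ)
  choose c hc0 hc using hch
  obtain ⟨F, hF⟩ : ∃ F : Finset (ℤ × ℤ), ∑' μ : {x // x ∉ F}, A μ < ε := by
    have h1 := ENNReal.tendsto_tsum_compl_atTop_zero (f := A) (hAsum ▸ hfin)
    exact (h1.eventually (gt_mem_nhds hε)).exists
  refine ⟨F, c, ?_⟩
  have hsub : ContinuousOn (fun p => g p - poly F c p) Om :=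
    hg.continuousOn.sub (poly_contDiffR F c).continuous.continuousOn
  rw [lint_Om_hat hsub, ← ENNReal.tsum_prod (f := fun m n => ∫⁻ q in om, wt q *
    ‖hat (fun p => g p - poly F c p) m n (emb q)‖ₑ ^ 2)]
  set B : ℤ × ℤ → ℝ≥0∞ := fun μ =>
    4 * C * ((∫⁻ q in om, wt q * ‖hat (fun p => L1 (fderiv ℝ g p)) (μ.1 + 1) μ.2 (emb q)‖ₑ ^ 2) +
      ∫⁻ q in om, wt q * ‖hat (fun p => L2 (fderiv ℝ g p)) μ.1 (μ.2 + 1) (emb q)‖ₑ ^ 2) with hB
  have hterm : ∀ μ : ℤ × ℤ, ∫⁻ q in om, wt q *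
      ‖hat (fun p => g p - poly F c p) μ.1 μ.2 (emb q)‖ₑ ^ 2 ≤
      B μ + ({x | x ∉ F} : Set (ℤ × ℤ)).indicator A μ := by
    intro μ
    by_cases hμ : μ ∈ F
    · rw [indicator_of_notMem (by simpa using hμ), add_zero]
      refine le_trans (le_of_eq ?_) (hc μ)
      apply setLIntegral_congr_fun isOpen_om.measurableSet
      intro q hq
      dsimp only
      rw [hat_sub hg.continuousOn (poly_contDiffR F c).continuous.continuousOn _ _ (emb_om hq),
        hat_poly F (fun m n h => hc0 (m, n) h), if_pos hμ]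
    · rw [indicator_of_mem (by simpa using hμ)]
      refine le_trans (le_of_eq ?_) (le_add_left le_rfl)
      apply setLIntegral_congr_fun isOpen_om.measurableSet
      intro q hq
      dsimp only
      rw [hat_sub hg.continuousOn (poly_contDiffR F c).continuous.continuousOn _ _ (emb_om hq),
        hat_poly F (fun m n h => hc0 (m, n) h), if_neg hμ, sub_zero]
  have hBsum : ∑' μ, B μ = 4 * C * ((∫⁻ p in Om, ‖L1 (fderiv ℝ g p)‖ₑ ^ 2) +
      ∫⁻ p in Om, ‖L2 (fderiv ℝ g p)‖ₑ ^ 2) := by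
    rw [hB, ENNReal.tsum_mul_left, ENNReal.tsum_add]
    congr 2
    · rw [lint_Om_hat hc1, ENNReal.tsum_prod']
      exact (Equiv.addRight (1 : ℤ)).tsum_eq (fun m => ∑' n : ℤ, ∫⁻ q in om, wt q *
        ‖hat (fun p => L1 (fderiv ℝ g p)) m n (emb q)‖ₑ ^ 2)
    · rw [lint_Om_hat hc2, ENNReal.tsum_prod']
      congr 1; funext m
      exact (Equiv.addRight (1 : ℤ)).tsum_eq (fun n => ∫⁻ q in om, wt q *
        ‖hat (fun p => L2 (fderiv ℝ g p)) m n (emb q)‖ₑ ^ 2)
  calc _ ≤ ∑' μ : ℤ × ℤ, (B μ + ({x | x ∉ F} : Set (ℤ × ℤ)).indicator A μ) :=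
        ENNReal.tsum_le_tsum hterm
    _ = ∑' μ, B μ + ∑' μ : {x // x ∉ F}, A μ := by
        rw [ENNReal.tsum_add]
        congr 1
        exact (tsum_subtype ({x | x ∉ F} : Set (ℤ × ℤ)) A).symm
    _ ≤ _ := by
        rw [hBsum]
        gcongr

end H51.HT
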