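import Pool.Agent.H51.Hartogs.Assembly

open MeasureTheory Set Filter Topology
open scoped ENNReal NNReal ContDiff Real ComplexConjugate

namespace H51.HT

open H51.Hartogs (om V)

theorem isDbar_congr {u f₁ f₂ v g₁ g₂ : ℂ × ℂ → ℂ} (h : IsDbar u f₁ f₂)
    (h1 : u =ᵐ[volume.restrict Om] v) (h2 : f₁ =ᵐ[volume.restrict Om] g₁)
    (h3 : f₂ =ᵐ[volume.restrict Om] g₂) : IsDbar v g₁ g₂ := by
  intro φ a b c
  obtain ⟨h4, h5⟩ := h φ a b c
  have key : ∀ (g g' ψ : ℂ × ℂ → ℂ), g =ᵐ[volume.restrict Om] g' →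
      ∫ p in Om, g' p * ψ p = ∫ p in Om, g p * ψ p := by
    intro g g' ψ hg
    apply integral_congr_ae
    filter_upwards [hg] with p hp
    rw [hp]
  constructor
  · rw [key u v _ h1, key f₁ g₁ _ h2, h4]
  · rw [key u v _ h1, key f₂ g₂ _ h3, h5]

theorem memLp_pair {f₁ f₂ : ℂ × ℂ → ℂ} (h1 : MemLp f₁ 2 (volume.restrict Om))
    (h2 : MemLp f₂ 2 (volume.restrict Om)) :
    MemLp (fun p => (f₁ p, f₂ p)) 2 (volume.restrict Om) := by
  have h3 := ((ContinuousLinearMap.inl ℂ ℂ ℂ).comp_memLp' h1).add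
    ((ContinuousLinearMap.inr ℂ ℂ ℂ).comp_memLp' h2)
  have e : (fun p => (f₁ p, f₂ p)) =
      ((ContinuousLinearMap.inl ℂ ℂ ℂ) ∘ f₁ + (ContinuousLinearMap.inr ℂ ℂ ℂ) ∘ f₂) := by
    funext p
    simp
  rw [e]
  exact h3

theorem wd_of_isDbar {u f₁ f₂ : ℂ × ℂ → ℂ} (hu : MemLp u 2 (volume.restrict Om))
    (h1 : MemLp f₁ 2 (volume.restrict Om))
    (h2 : MemLp f₂ 2 (volume.restrict Om)) (h : IsDbar u f₁ f₂) :
    WD volume Om (L1.prod L2) u (fun p => (f₁ p, f₂ p)) := by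
  intro φ a b c
  obtain ⟨h4, h5⟩ := h φ a b c
  have hint : ∀ (g ψ : ℂ × ℂ → ℂ), MemLp g 2 (volume.restrict Om) → Continuous ψ →
      HasCompactSupport ψ → Integrable (fun p => g p * ψ p) (volume.restrict Om) := by
    intro g ψ hg h3 h4
    exact MemLp.integrable_mul (p := 2) (q := 2) hg (memLp_test h3 h4)
  have e1 : ∀ p, u p • (L1.prod L2) (fderiv ℝ φ p) =
      (u p * L1 (fderiv ℝ φ p), u p * L2 (fderiv ℝ φ p)) := by
    intro p; simp
  have e2 : ∀ p, φ p • (f₁ p, f₂ p) = (f₁ p * φ p, f₂ p * φ p) := by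
    intro p; simp [mul_comm]
  simp only [e1, e2]
  rw [integral_pair (hint _ _ hu (test_cs a b L1).1 (test_cs a b L1).2)
    (hint _ _ hu (test_cs a b L2).1 (test_cs a b L2).2),
    integral_pair (hint _ _ h1 a.continuous b) (hint _ _ h2 a.continuous b)]
  simp only [← dzbar_eq, ← dwbar_eq, h4, h5, Prod.neg_mk]

/-- the fundamental estimate. -/
theorem est {C : ℝ≥0} (hW : WProp C) {u f₁ f₂ : HOm} (h : IsDbar u f₁ f₂) :
    ∃ w : HOm, IsDbar w (0 : HOm) (0 : HOm) ∧ ‖u - w‖ ≤ (32 * C + 2) * (‖f₁‖ + ‖f₂‖) := by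
  by_cases hz : ‖f₁‖ₑ + ‖f₂‖ₑ = 0
  · have hz1 : f₁ = 0 := by simpa using (add_eq_zero.1 hz).1
    have hz2 : f₂ = 0 := by simpa using (add_eq_zero.1 hz).2
    subst hz1; subst hz2
    exact ⟨u, h, by simp⟩
  set ε : ℝ≥0∞ := ‖f₁‖ₑ + ‖f₂‖ₑ with hε
  have hεtop : ε ≠ ⊤ := by simp [hε]
  have hε0 : 0 < ε := pos_iff_ne_zero.2 hz
  have hu := Lp.memLp u
  have h1 := Lp.memLp f₁
  have h2 := Lp.memLp f₂
  have hf₁ : ‖f₁‖ₑ = eLpNorm f₁ 2 (volume.restrict Om) := Lp.enorm_def f₁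
  have hf₂ : ‖f₂‖ₑ = eLpNorm f₂ 2 (volume.restrict Om) := Lp.enorm_def f₂
  obtain ⟨v, hv1, hv2, hv3⟩ := meyersSerrin isOpen_Om (L1.prod L2) hu (memLp_pair h1 h2)
    (wd_of_isDbar hu h1 h2 h) hε0
  have hvc : ContDiffOn ℝ 1 v Om := hv1.of_le (by simp)
  have hfd : ContinuousOn (fderiv ℝ v) Om := hvc.continuousOn_fderiv_of_isOpen isOpen_Om le_rfl
  have hvm : AEStronglyMeasurable v (volume.restrict Om) :=
    hvc.continuousOn.aestronglyMeasurable isOpen_Om.measurableSet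
  have hL1m : AEStronglyMeasurable (fun p => L1 (fderiv ℝ v p)) (volume.restrict Om) :=
    (L1.continuous.comp_continuousOn hfd).aestronglyMeasurable isOpen_Om.measurableSet
  have hL2m : AEStronglyMeasurable (fun p => L2 (fderiv ℝ v p)) (volume.restrict Om) :=
    (L2.continuous.comp_continuousOn hfd).aestronglyMeasurable isOpen_Om.measurableSet
  have hvfin : ∫⁻ p in Om, ‖v p‖ₑ ^ 2 ≠ ⊤ := by
    rw [← sq_eLpNorm]
    have h3 : eLpNorm v 2 (volume.restrict Om) ≤ ε + ‖u‖ₑ := by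
      rw [Lp.enorm_def]
      calc eLpNorm v 2 (volume.restrict Om) = eLpNorm ((fun x => v x - u x) + (u : ℂ × ℂ → ℂ)) 2 (volume.restrict Om) := by
            congr 1; funext x; simp
        _ ≤ _ := eLpNorm_add_le (hvm.sub hu.1) hu.1 (by norm_num)
        _ ≤ _ := by gcongr
    have h4 : eLpNorm v 2 (volume.restrict Om) < ⊤ :=
      h3.trans_lt (by simp [hεtop, lt_top_iff_ne_top])
    exact ENNReal.pow_ne_top h4.ne
  obtain ⟨F, c, hFc⟩ := smooth_est hW hvc hvfin
    (pos_iff_ne_zero.2 (pow_ne_zero 2 hz) : 0 < ε ^ 2)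
  refine ⟨(poly_memLp F c).toLp, ?_, ?_⟩
  · refine isDbar_congr (poly_isDbar F c) (poly_memLp F c).coeFn_toLp.symm ?_ ?_
    · exact (Lp.coeFn_zero _ _ _).symm
    · exact (Lp.coeFn_zero _ _ _).symm
  · have hd1 : eLpNorm (fun p => L1 (fderiv ℝ v p)) 2 (volume.restrict Om) ≤ 2 * ε := by
      calc eLpNorm (fun p => L1 (fderiv ℝ v p)) 2 (volume.restrict Om)
          = eLpNorm ((fun p => L1 (fderiv ℝ v p) - f₁ p) + (f₁ : ℂ × ℂ → ℂ)) 2 (volume.restrict Om) := by
            congr 1; funext x; simp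
        _ ≤ _ := eLpNorm_add_le (hL1m.sub h1.1) h1.1 (by norm_num)
        _ ≤ ε + ε := by
          gcongr
          · refine le_trans (eLpNorm_mono fun p => ?_) hv3
            simp only [ContinuousLinearMap.prod_apply, Prod.mk_sub_mk, Prod.norm_def]
            exact le_max_left _ _
          · rw [← hf₁, hε]; exact le_self_add
        _ = 2 * ε := (two_mul ε).symm
    have hd2 : eLpNorm (fun p => L2 (fderiv ℝ v p)) 2 (volume.restrict Om) ≤ 2 * ε := by
      calc eLpNorm (fun p => L2 (fderiv ℝ v p)) 2 (volume.restrict Om)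
          = eLpNorm ((fun p => L2 (fderiv ℝ v p) - f₂ p) + (f₂ : ℂ × ℂ → ℂ)) 2 (volume.restrict Om) := by
            congr 1; funext x; simp
        _ ≤ _ := eLpNorm_add_le (hL2m.sub h2.1) h2.1 (by norm_num)
        _ ≤ ε + ε := by
          gcongr
          · refine le_trans (eLpNorm_mono fun p => ?_) hv3
            simp only [ContinuousLinearMap.prod_apply, Prod.mk_sub_mk, Prod.norm_def]
            exact le_max_right _ _
          · rw [← hf₂, hε]; exact le_add_self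
        _ = 2 * ε := (two_mul ε).symm
    have hvp : eLpNorm (fun p => v p - poly F c p) 2 (volume.restrict Om) ≤ (32 * C + 1) * ε := by
      rw [← ENNReal.pow_le_pow_left_iff (n := 2) (by norm_num), sq_eLpNorm]
      refine hFc.trans ?_
      rw [← sq_eLpNorm, ← sq_eLpNorm]
      calc _ ≤ 4 * C * ((2 * ε) ^ 2 + (2 * ε) ^ 2) + ε ^ 2 := by gcongr
        _ = (32 * C + 1) * ε ^ 2 := by ring
        _ ≤ (32 * C + 1) ^ 2 * ε ^ 2 := by
          gcongr
          calc (32 * (C : ℝ≥0∞) + 1) = (32 * C + 1) * 1 := (mul_one _).symm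
            _ ≤ (32 * C + 1) * (32 * C + 1) := by gcongr; exact le_add_self
            _ = _ := (sq _).symm
        _ = _ := by ring
    have hmain : ‖u - (poly_memLp F c).toLp‖ₑ ≤ (32 * C + 2) * ε := by
      rw [Lp.enorm_def]
      have e1 : eLpNorm (↑(u - (poly_memLp F c).toLp) : ℂ × ℂ → ℂ) 2 (volume.restrict Om) =
          eLpNorm (fun p => (u p - v p) + (v p - poly F c p)) 2 (volume.restrict Om) := by
        apply eLpNorm_congr_ae
        filter_upwards [Lp.coeFn_sub u ((poly_memLp F c).toLp), (poly_memLp F c).coeFn_toLp] with p h3 h4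
        rw [h3, Pi.sub_apply, h4]; ring
      rw [e1]
      refine (eLpNorm_add_le (hu.1.sub hvm) (hvm.sub (poly_memLp F c).1) (by norm_num)).trans ?_
      have e2 : eLpNorm (fun p => u p - v p) 2 (volume.restrict Om) ≤ ε := by
        refine le_trans (le_of_eq ?_) hv2
        rw [← eLpNorm_neg]
        congr 1; funext p; simp
      calc _ ≤ ε + (32 * C + 1) * ε := add_le_add e2 hvp
        _ = _ := by ring
    have h32 : (32 * (C : ℝ≥0∞)) ≠ ⊤ := ENNReal.mul_ne_top (by norm_num) ENNReal.coe_ne_top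
    have h322 : (32 * (C : ℝ≥0∞) + 2) ≠ ⊤ := ENNReal.add_ne_top.2 ⟨h32, by norm_num⟩
    have h5 := ENNReal.toReal_mono (ENNReal.mul_ne_top h322 hεtop) hmain
    rw [toReal_enorm] at h5
    refine h5.trans (le_of_eq ?_)
    have e3 : (32 * (C : ℝ≥0∞) + 2).toReal = 32 * (C : ℝ) + 2 := by
      rw [ENNReal.toReal_add h32 (by norm_num)]; simp
    have e4 : ε.toReal = ‖f₁‖ + ‖f₂‖ := by
      rw [hε, ENNReal.toReal_add (by simp) (by simp)]; simp
    rw [ENNReal.toReal_mul, e3, e4]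

/-- **Closed range**, conditional on the weighted inequality. -/
theorem closed_range {C : ℝ≥0} (hW : WProp C) :
    IsClosed {f : HOm × HOm | ∃ u : HOm, IsDbar u f.1 f.2} := by
  let N : Submodule ℂ HOm :=
    { carrier := {u | IsDbar u (0 : HOm) (0 : HOm)}
      add_mem' := fun {a b} ha hb => by
        have := isDbar_add ha hb
        simpa using this
      zero_mem' := isDbar_zero
      smul_mem' := fun c {a} ha => by
        have := isDbar_smul c ha
        simpa using this }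
  have hNc : IsClosed (N : Set HOm) := by
    have h1 : Continuous (fun u : HOm => (u, ((0 : HOm), (0 : HOm)))) := by fun_prop
    exact isClosed_graph.preimage h1
  have : CompleteSpace N := hNc.completeSpace_coe
  have hproj : ∀ f : HOm × HOm, (∃ u : HOm, IsDbar u f.1 f.2) →
      ∃ w : HOm, w ∈ Nᗮ ∧ IsDbar w f.1 f.2 := by
    rintro f ⟨u, hu⟩
    refine ⟨u - N.starProjection u, N.sub_starProjection_mem_orthogonal u, ?_⟩
    have h1 : IsDbar (N.starProjection u) (0 : HOm) (0 : HOm) := N.starProjection_apply_mem u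
    simpa using isDbar_sub hu h1
  have hest : ∀ f : HOm × HOm, ∀ w ∈ Nᗮ, IsDbar w f.1 f.2 → ‖w‖ ≤ (32 * C + 2) * (2 * ‖f‖) := by
    intro f w hw hwf
    obtain ⟨h, hh, hle⟩ := est hW hwf
    have horth : inner ℂ h w = 0 := (Submodule.mem_orthogonal N w).1 hw h hh
    have h1 : ‖w‖ ≤ ‖w - h‖ := by
      have h3 : ‖w - h‖ ^ 2 = ‖w‖ ^ 2 + ‖h‖ ^ 2 := by
        rw [@norm_sub_sq ℂ]
        have : inner ℂ w h = 0 := by rw [← inner_conj_symm, horth]; simp
        rw [this]; simp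
      nlinarith [norm_nonneg w, norm_nonneg (w - h), sq_nonneg ‖h‖]
    have h4 : ‖f.1‖ + ‖f.2‖ ≤ 2 * ‖f‖ := by
      have := norm_fst_le f; have := norm_snd_le f
      linarith
    calc ‖w‖ ≤ ‖w - h‖ := h1
      _ ≤ (32 * C + 2) * (‖f.1‖ + ‖f.2‖) := hle
      _ ≤ _ := by gcongr
  apply IsSeqClosed.isClosed
  intro f f₀ hf hlim
  have hch := fun n => hproj (f n) (hf n)
  choose w hw1 hw2 using hch
  have hdist : ∀ n m, dist (w n) (w m) ≤ (32 * C + 2) * 2 * dist (f n) (f m) := by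
    intro n m
    rw [dist_eq_norm, dist_eq_norm]
    have := hest (f n - f m) (w n - w m) (Nᗮ.sub_mem (hw1 n) (hw1 m))
      (isDbar_sub (hw2 n) (hw2 m))
    linarith
  have hcau : CauchySeq w := by
    rw [Metric.cauchySeq_iff]
    intro ε hε
    have hK : (0 : ℝ) < (32 * C + 2) * 2 := by positivity
    obtain ⟨N₀, hN₀⟩ := Metric.cauchySeq_iff.1 hlim.cauchySeq (ε / ((32 * C + 2) * 2)) (by positivity)
    refine ⟨N₀, fun m hm n hn => ?_⟩
    calc dist (w m) (w n) ≤ (32 * C + 2) * 2 * dist (f m) (f n) := hdist m n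
      _ < (32 * C + 2) * 2 * (ε / ((32 * C + 2) * 2)) := by
        gcongr; exact hN₀ m hm n hn
      _ = ε := by field_simp
  obtain ⟨w₀, hw₀⟩ := cauchySeq_tendsto_of_complete hcau
  refine ⟨w₀, ?_⟩
  have h5 : Tendsto (fun n => (w n, ((f n).1, (f n).2))) atTop (𝓝 (w₀, (f₀.1, f₀.2))) :=
    hw₀.prodMk_nhds hlim
  exact isClosed_graph.mem_of_tendsto h5 (Eventually.of_forall hw2)

end H51.HT
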