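import Pool.Agent.H51.Hartogs.PI

open MeasureTheory Set Filter Topology AddCircle
open scoped ENNReal NNReal ContDiff Real

namespace H51.HT

instance factTwoPi : Fact (0 < 2 * π) := ⟨by positivity⟩

/-- the circle as an additive group -/
abbrev Ci := AddCircle (2 * π)

/-- the torus action on `ℂ²`. -/
noncomputable def act (k : Ci × Ci) (p : ℂ × ℂ) : ℂ × ℂ :=
  ((k.1.toCircle : ℂ) * p.1, (k.2.toCircle : ℂ) * p.2)

theorem continuous_act : Continuous (fun q : (ℂ × ℂ) × (Ci × Ci) => act q.2 q.1) := by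
  unfold act
  have h1 : Continuous (fun a : Ci => (a.toCircle : ℂ)) :=
    continuous_subtype_val.comp AddCircle.continuous_toCircle
  fun_prop

/-- the action as a continuous linear map. -/
noncomputable def actL (k : Ci × Ci) : ℂ × ℂ →L[ℝ] ℂ × ℂ :=
  (ContinuousLinearMap.inl ℝ ℂ ℂ).comp
    (((ContinuousLinearMap.mul ℝ ℂ) (k.1.toCircle : ℂ)).comp (ContinuousLinearMap.fst ℝ ℂ ℂ)) +
  (ContinuousLinearMap.inr ℝ ℂ ℂ).comp
    (((ContinuousLinearMap.mul ℝ ℂ) (k.2.toCircle : ℂ)).comp (ContinuousLinearMap.snd ℝ ℂ ℂ))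

@[simp] theorem actL_apply (k : Ci × Ci) (p : ℂ × ℂ) : actL k p = act k p := by
  simp [actL, act]

theorem continuous_actL : Continuous actL := by
  unfold actL
  have h1 : Continuous (fun a : Ci => (a.toCircle : ℂ)) :=
    continuous_subtype_val.comp AddCircle.continuous_toCircle
  have h2 : Continuous (fun c : ℂ => (ContinuousLinearMap.mul ℝ ℂ) c) :=
    (ContinuousLinearMap.mul ℝ ℂ).continuous
  have h3 : Continuous (fun k : Ci × Ci => ((ContinuousLinearMap.mul ℝ ℂ) (k.1.toCircle : ℂ)).comp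
      (ContinuousLinearMap.fst ℝ ℂ ℂ)) :=
    (h2.comp (h1.comp continuous_fst)).clm_comp continuous_const
  have h4 : Continuous (fun k : Ci × Ci => ((ContinuousLinearMap.mul ℝ ℂ) (k.2.toCircle : ℂ)).comp
      (ContinuousLinearMap.snd ℝ ℂ ℂ)) :=
    (h2.comp (h1.comp continuous_snd)).clm_comp continuous_const
  exact (continuous_const.clm_comp h3).add (continuous_const.clm_comp h4)

/-- evaluation as a complex linear functional on real-linear maps. -/
noncomputable def evC {E : Type*} [NormedAddCommGroup E] [NormedSpace ℝ E] (v : E) :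
    (E →L[ℝ] ℂ) →L[ℂ] ℂ :=
  LinearMap.mkContinuous
    { toFun := fun A => A v
      map_add' := fun A B => by simp
      map_smul' := fun c A => by simp } ‖v‖ (fun A => by
        rw [mul_comm]; exact A.le_opNorm v)

@[simp] theorem evC_apply {E : Type*} [NormedAddCommGroup E] [NormedSpace ℝ E] (v : E)
    (A : E →L[ℝ] ℂ) : evC v A = A v := rfl

/-- `∂/∂z̄` as a functional of the derivative. -/
noncomputable def L1 : (ℂ × ℂ →L[ℝ] ℂ) →L[ℂ] ℂ :=
  (1 / 2 : ℂ) • (evC (1, 0) + Complex.I • evC (Complex.I, 0))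

/-- `∂/∂w̄` as a functional of the derivative. -/
noncomputable def L2 : (ℂ × ℂ →L[ℝ] ℂ) →L[ℂ] ℂ :=
  (1 / 2 : ℂ) • (evC (0, 1) + Complex.I • evC (0, Complex.I))

theorem L1_apply (A : ℂ × ℂ →L[ℝ] ℂ) : L1 A = 1 / 2 * (A (1, 0) + Complex.I * A (Complex.I, 0)) := by
  simp [L1]; ring

theorem L2_apply (A : ℂ × ℂ →L[ℝ] ℂ) : L2 A = 1 / 2 * (A (0, 1) + Complex.I * A (0, Complex.I)) := by
  simp [L2]; ring

/-- the product Haar measure on the torus. -/
noncomputable def κ : Measure (Ci × Ci) := haarAddCircle.prod haarAddCircle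

instance : IsProbabilityMeasure κ := by unfold κ; infer_instance
instance : κ.IsAddLeftInvariant := by unfold κ; infer_instance

/-- torus Fourier coefficients. -/
noncomputable def hat (g : ℂ × ℂ → ℂ) (m n : ℤ) (p : ℂ × ℂ) : ℂ :=
  ∫ k : Ci × Ci, (fourier (-m) k.1 * fourier (-n) k.2) * g (act k p) ∂κ

theorem act_act (k l : Ci × Ci) (p : ℂ × ℂ) : act k (act l p) = act (l + k) p := by
  simp [act, AddCircle.toCircle_add]
  constructor <;> ring

theorem hat_act (g : ℂ × ℂ → ℂ) (m n : ℤ) (l : Ci × Ci) (p : ℂ × ℂ) :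
    hat g m n (act l p) = fourier m l.1 * fourier n l.2 * hat g m n p := by
  unfold hat
  have h1 : ∀ k : Ci × Ci, fourier (-m) k.1 * fourier (-n) k.2 * g (act k (act l p)) =
      fourier m l.1 * fourier n l.2 *
        (fourier (-m) (l + k).1 * fourier (-n) (l + k).2 * g (act (l + k) p)) := by
    intro k
    rw [act_act]
    have e1 : ∀ (j : ℤ) (x y : Ci), (fourier (-j) (x + y) : ℂ) = fourier (-j) x * fourier (-j) y := by
      intro j x y
      simp [fourier_apply, smul_add, AddCircle.toCircle_add]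
    have e2 : ∀ (j : ℤ) (x : Ci), (fourier j x : ℂ) * fourier (-j) x = 1 := by
      intro j x
      rw [← fourier_add]; simp
    simp only [Prod.fst_add, Prod.snd_add, e1]
    have e3 := e2 m l.1
    have e4 := e2 n l.2
    calc _ = (fourier m l.1 * fourier (-m) l.1) * (fourier n l.2 * fourier (-n) l.2) *
        (fourier (-m) k.1 * fourier (-n) k.2 * g (act (l + k) p)) := by rw [e3, e4]; ring
      _ = _ := by ring
  simp only [h1]
  rw [integral_const_mul]
  congr 1
  exact integral_add_left_eq_self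
    (fun k : Ci × Ci => fourier (-m) k.1 * fourier (-n) k.2 * g (act k p)) l

section
variable {Ω : Set (ℂ × ℂ)} (hΩ : IsOpen Ω) (hinv : ∀ k p, p ∈ Ω → act k p ∈ Ω)
include hΩ hinv

omit hΩ in
theorem contOn_int {g : ℂ × ℂ → ℂ} (hg : ContinuousOn g Ω) (m n : ℤ) :
    ContinuousOn (fun q : (ℂ × ℂ) × (Ci × Ci) =>
      (fourier (-m) q.2.1 * fourier (-n) q.2.2) * g (act q.2 q.1)) (Ω ×ˢ univ) := by
  have h1 : ContinuousOn (fun q : (ℂ × ℂ) × (Ci × Ci) => g (act q.2 q.1)) (Ω ×ˢ univ) :=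
    hg.comp continuous_act.continuousOn (fun q hq => hinv _ _ hq.1)
  have h2 : Continuous (fun q : (ℂ × ℂ) × (Ci × Ci) =>
      (fourier (-m) q.2.1 * fourier (-n) q.2.2 : ℂ)) := by fun_prop
  exact h2.continuousOn.mul h1

theorem hat_cont {g : ℂ × ℂ → ℂ} (hg : ContinuousOn g Ω) (m n : ℤ) :
    ContinuousOn (hat g m n) Ω :=
  PI_cont hΩ (contOn_int hinv hg m n)

theorem hat_deriv {g : ℂ × ℂ → ℂ} (hg : ContDiffOn ℝ 1 g Ω) (m n : ℤ) {p : ℂ × ℂ} (hp : p ∈ Ω) :
    HasFDerivAt (hat g m n) (∫ k : Ci × Ci, (fourier (-m) k.1 * fourier (-n) k.2 : ℂ) •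
      (fderiv ℝ g (act k p)).comp (actL k) ∂κ) p ∧
    ContinuousOn (fun p => ∫ k : Ci × Ci, (fourier (-m) k.1 * fourier (-n) k.2 : ℂ) •
      (fderiv ℝ g (act k p)).comp (actL k) ∂κ) Ω := by
  have hfd : ContinuousOn (fderiv ℝ g) Ω := hg.continuousOn_fderiv_of_isOpen hΩ le_rfl
  have hA' : ContinuousOn (fun q : (ℂ × ℂ) × (Ci × Ci) =>
      (fourier (-m) q.2.1 * fourier (-n) q.2.2 : ℂ) • (fderiv ℝ g (act q.2 q.1)).comp (actL q.2))
      (Ω ×ˢ univ) := by
    have h1 : ContinuousOn (fun q : (ℂ × ℂ) × (Ci × Ci) => fderiv ℝ g (act q.2 q.1)) (Ω ×ˢ univ) :=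
      hfd.comp continuous_act.continuousOn (fun q hq => hinv _ _ hq.1)
    have h2 : Continuous (fun q : (ℂ × ℂ) × (Ci × Ci) =>
      (fourier (-m) q.2.1 * fourier (-n) q.2.2 : ℂ)) := by fun_prop
    have h3 : Continuous (fun q : (ℂ × ℂ) × (Ci × Ci) => actL q.2) :=
      continuous_actL.comp continuous_snd
    exact h2.continuousOn.smul (h1.clm_comp h3.continuousOn)
  refine ⟨?_, ?_⟩
  · refine PI_deriv (ν := κ) hΩ (A := fun p k => (fourier (-m) k.1 * fourier (-n) k.2) * g (act k p))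
      (A' := fun p k => (fourier (-m) k.1 * fourier (-n) k.2 : ℂ) •
      (fderiv ℝ g (act k p)).comp (actL k)) (contOn_int hinv hg.continuousOn m n) hA' ?_ hp
    intro p hp k
    have hd : HasFDerivAt g (fderiv ℝ g (act k p)) (act k p) :=
      ((hg.differentiableOn one_ne_zero).differentiableAt (hΩ.mem_nhds (hinv k p hp))).hasFDerivAt
    have h4 : HasFDerivAt (fun p => act k p) (actL k) p := by
      have h6 : (fun p => act k p) = ⇑(actL k) := by funext p; simp
      rw [h6]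
      exact (actL k).hasFDerivAt
    have h5 := (hd.comp p h4).const_mul (fourier (-m) k.1 * fourier (-n) k.2 : ℂ)
    exact h5
  · exact PI_cont (ν := κ) hΩ (A := fun p k => (fourier (-m) k.1 * fourier (-n) k.2 : ℂ) •
      (fderiv ℝ g (act k p)).comp (actL k)) hA'

end

end H51.HT
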