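import Pool.Agent.H51.Hartogs.Torus

open MeasureTheory Set Filter Topology AddCircle
open scoped ENNReal NNReal ContDiff Real ComplexConjugate

namespace H51.HT

theorem circ_key1 (A : ℂ × ℂ →L[ℝ] ℂ) (e : ℂ) :
    A (e, 0) + Complex.I * A (e * Complex.I, 0) =
      conj e * (A (1, 0) + Complex.I * A (Complex.I, 0)) := by
  have h1 : ((e, 0) : ℂ × ℂ) = e.re • ((1 : ℂ), (0 : ℂ)) + e.im • (Complex.I, (0 : ℂ)) := by
    ext <;> simp
  have h2 : ((e * Complex.I, 0) : ℂ × ℂ) = (-e.im) • ((1 : ℂ), (0 : ℂ)) + e.re • (Complex.I, (0 : ℂ)) := by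
    apply Prod.ext
    · apply Complex.ext <;> simp
    · simp
  rw [h1, h2]
  simp only [map_add, map_smul]
  have h3 : conj e = (e.re : ℂ) - e.im * Complex.I := by
    apply Complex.ext <;> simp
  rw [h3]
  simp only [Complex.real_smul]
  push_cast
  linear_combination ((e.im : ℂ) * A (Complex.I, 0)) * Complex.I_sq

theorem circ_key2 (A : ℂ × ℂ →L[ℝ] ℂ) (e : ℂ) :
    A (0, e) + Complex.I * A (0, e * Complex.I) =
      conj e * (A (0, 1) + Complex.I * A (0, Complex.I)) := by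
  have h1 : ((0, e) : ℂ × ℂ) = e.re • ((0 : ℂ), (1 : ℂ)) + e.im • ((0 : ℂ), Complex.I) := by
    ext <;> simp
  have h2 : ((0, e * Complex.I) : ℂ × ℂ) = (-e.im) • ((0 : ℂ), (1 : ℂ)) + e.re • ((0 : ℂ), Complex.I) := by
    apply Prod.ext
    · simp
    · apply Complex.ext <;> simp
  rw [h1, h2]
  simp only [map_add, map_smul]
  have h3 : conj e = (e.re : ℂ) - e.im * Complex.I := by
    apply Complex.ext <;> simp
  rw [h3]
  simp only [Complex.real_smul]
  push_cast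
  linear_combination ((e.im : ℂ) * A (0, Complex.I)) * Complex.I_sq

theorem L1_comp (A : ℂ × ℂ →L[ℝ] ℂ) (k : Ci × Ci) :
    L1 (A.comp (actL k)) = conj (k.1.toCircle : ℂ) * L1 A := by
  rw [L1_apply, L1_apply]
  have := circ_key1 A (k.1.toCircle : ℂ)
  simp only [ContinuousLinearMap.comp_apply, actL_apply, act, mul_one, mul_zero]
  rw [this]; ring

theorem L2_comp (A : ℂ × ℂ →L[ℝ] ℂ) (k : Ci × Ci) :
    L2 (A.comp (actL k)) = conj (k.2.toCircle : ℂ) * L2 A := by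
  rw [L2_apply, L2_apply]
  have := circ_key2 A (k.2.toCircle : ℂ)
  simp only [ContinuousLinearMap.comp_apply, actL_apply, act, mul_one, mul_zero]
  rw [this]; ring

theorem fourier_conj (m : ℤ) (a : Ci) :
    (fourier (-m) a : ℂ) * conj (a.toCircle : ℂ) = fourier (-(m + 1)) a := by
  have h : conj (a.toCircle : ℂ) = fourier (-1) a := by
    rw [fourier_neg, fourier_one]
  rw [h, ← fourier_add]
  congr 2
  ring

section
variable {Ω : Set (ℂ × ℂ)} (hΩ : IsOpen Ω) (hinv : ∀ k p, p ∈ Ω → act k p ∈ Ω)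
include hΩ hinv

theorem int_aux {g : ℂ × ℂ → ℂ} (hg : ContDiffOn ℝ 1 g Ω) (m n : ℤ) {p : ℂ × ℂ} (hp : p ∈ Ω) :
    Integrable (fun k : Ci × Ci => (fourier (-m) k.1 * fourier (-n) k.2 : ℂ) •
      (fderiv ℝ g (act k p)).comp (actL k)) κ := by
  have hfd : ContinuousOn (fderiv ℝ g) Ω := hg.continuousOn_fderiv_of_isOpen hΩ le_rfl
  have h1 : Continuous (fun k : Ci × Ci => fderiv ℝ g (act k p)) := by
    have h2 : Continuous (fun k : Ci × Ci => act k p) :=
      continuous_act.comp (by fun_prop : Continuous fun k : Ci × Ci => (p, k))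
    exact hfd.comp_continuous h2 (fun k => hinv k p hp)
  have h2 : Continuous (fun k : Ci × Ci => (fourier (-m) k.1 * fourier (-n) k.2 : ℂ)) := by fun_prop
  exact (h2.smul (h1.clm_comp continuous_actL)).integrable_of_hasCompactSupport
    (HasCompactSupport.of_compactSpace _)

theorem L1_hat {g : ℂ × ℂ → ℂ} (hg : ContDiffOn ℝ 1 g Ω) (m n : ℤ) {p : ℂ × ℂ} (hp : p ∈ Ω) :
    L1 (fderiv ℝ (hat g m n) p) = hat (fun p => L1 (fderiv ℝ g p)) (m + 1) n p := by
  rw [(hat_deriv hΩ hinv hg m n hp).1.fderiv, ← L1.integral_comp_comm (int_aux hΩ hinv hg m n hp)]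
  unfold hat
  congr 1; funext k
  rw [map_smul, L1_comp, smul_eq_mul, ← fourier_conj]
  ring

theorem L2_hat {g : ℂ × ℂ → ℂ} (hg : ContDiffOn ℝ 1 g Ω) (m n : ℤ) {p : ℂ × ℂ} (hp : p ∈ Ω) :
    L2 (fderiv ℝ (hat g m n) p) = hat (fun p => L2 (fderiv ℝ g p)) m (n + 1) p := by
  rw [(hat_deriv hΩ hinv hg m n hp).1.fderiv, ← L2.integral_comp_comm (int_aux hΩ hinv hg m n hp)]
  unfold hat
  congr 1; funext k
  rw [map_smul, L2_comp, smul_eq_mul, ← fourier_conj]
  ring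

/-- `hat g m n` is `C¹`. -/
theorem hat_contDiffOn {g : ℂ × ℂ → ℂ} (hg : ContDiffOn ℝ 1 g Ω) (m n : ℤ) :
    ContDiffOn ℝ 1 (hat g m n) Ω := by
  have h : (1 : WithTop ℕ∞) = 0 + 1 := by simp
  rw [h, contDiffOn_succ_iff_fderiv_of_isOpen hΩ]
  refine ⟨fun p hp => (hat_deriv hΩ hinv hg m n hp).1.differentiableAt.differentiableWithinAt,
    by simp, ?_⟩
  rw [contDiffOn_zero]
  by_cases hne : Ω.Nonempty
  · obtain ⟨p₀, hp₀⟩ := hne
    refine (hat_deriv hΩ hinv hg m n hp₀).2.congr ?_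
    intro p hp
    exact (hat_deriv hΩ hinv hg m n hp).1.fderiv
  · rw [not_nonempty_iff_eq_empty.1 hne]; exact continuousOn_empty _

end

theorem toCircle_real (s : ℝ) :
    (@AddCircle.toCircle (2 * π) (s : Ci) : ℂ) = Complex.exp (s * Complex.I) := by
  rw [AddCircle.toCircle_apply_mk, Circle.coe_exp]
  congr 2
  have : (2 * π) ≠ 0 := by positivity
  field_simp

theorem fourier_real (m : ℤ) (s : ℝ) :
    (fourier m (s : Ci) : ℂ) = Complex.exp (m * s * Complex.I) := by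
  rw [fourier_apply]
  have : m • (s : Ci) = ((m • s : ℝ) : Ci) := by simp
  rw [this, toCircle_real]
  simp

section
variable {Ω : Set (ℂ × ℂ)} (hΩ : IsOpen Ω) (hinv : ∀ k p, p ∈ Ω → act k p ∈ Ω)
include hΩ hinv

omit hΩ hinv in
theorem exp_deriv0 (m : ℂ) : HasDerivAt (fun s : ℝ => Complex.exp (m * s * Complex.I)) (m * Complex.I) 0 := by
  have h2 : HasDerivAt (fun s : ℂ => Complex.exp (m * s * Complex.I))
      (Complex.exp (m * (0 : ℝ) * Complex.I) * (m * Complex.I)) ((0 : ℝ) : ℂ) := by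
    simpa using (((hasDerivAt_id (((0 : ℝ) : ℂ))).const_mul m).mul_const Complex.I).cexp
  simpa using h2.comp_ofReal

/-- infinitesimal homogeneity in `z`. -/
theorem hat_rot1 {g : ℂ × ℂ → ℂ} (hg : ContDiffOn ℝ 1 g Ω) (m n : ℤ) {p : ℂ × ℂ} (hp : p ∈ Ω) :
    fderiv ℝ (hat g m n) p (Complex.I * p.1, 0) = Complex.I * m * hat g m n p := by
  have hd := (hat_deriv hΩ hinv hg m n hp).1.differentiableAt.hasFDerivAt
  have hc : HasDerivAt (fun s : ℝ => (Complex.exp (1 * s * Complex.I) * p.1, p.2))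
      (1 * Complex.I * p.1, 0) 0 :=
    ((exp_deriv0 1).mul_const p.1).prodMk (hasDerivAt_const 0 p.2)
  have h3 := hd.comp_hasDerivAt_of_eq (0 : ℝ) hc (by simp)
  have h4 : (hat g m n ∘ fun s : ℝ => (Complex.exp (1 * s * Complex.I) * p.1, p.2)) =
      fun s : ℝ => Complex.exp (m * s * Complex.I) * hat g m n p := by
    funext s
    have h5 := hat_act g m n ((s : Ci), (0 : Ci)) p
    simp only [act, toCircle_real, fourier_real, AddCircle.toCircle_zero, fourier_eval_zero,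
      mul_one, Circle.coe_one, one_mul] at h5
    simp only [Function.comp, one_mul]
    exact h5
  rw [h4] at h3
  have h6 := (exp_deriv0 m).mul_const (hat g m n p)
  have := h3.unique h6
  rw [one_mul] at this
  rw [this]; ring

/-- infinitesimal homogeneity in `w`. -/
theorem hat_rot2 {g : ℂ × ℂ → ℂ} (hg : ContDiffOn ℝ 1 g Ω) (m n : ℤ) {p : ℂ × ℂ} (hp : p ∈ Ω) :
    fderiv ℝ (hat g m n) p (0, Complex.I * p.2) = Complex.I * n * hat g m n p := by
  have hd := (hat_deriv hΩ hinv hg m n hp).1.differentiableAt.hasFDerivAt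
  have hc : HasDerivAt (fun s : ℝ => (p.1, Complex.exp (1 * s * Complex.I) * p.2))
      (0, 1 * Complex.I * p.2) 0 :=
    (hasDerivAt_const 0 p.1).prodMk ((exp_deriv0 1).mul_const p.2)
  have h3 := hd.comp_hasDerivAt_of_eq (0 : ℝ) hc (by simp)
  have h4 : (hat g m n ∘ fun s : ℝ => (p.1, Complex.exp (1 * s * Complex.I) * p.2)) =
      fun s : ℝ => Complex.exp (n * s * Complex.I) * hat g m n p := by
    funext s
    have h5 := hat_act g m n ((0 : Ci), (s : Ci)) p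
    simp only [act, toCircle_real, fourier_real, AddCircle.toCircle_zero, fourier_eval_zero,
      mul_one, Circle.coe_one, one_mul] at h5
    simp only [Function.comp, one_mul]
    exact h5
  rw [h4] at h3
  have h6 := (exp_deriv0 n).mul_const (hat g m n p)
  have := h3.unique h6
  rw [one_mul] at this
  rw [this]; ring

/-- the real `x`-derivative of the mode. -/
theorem hat_dx {g : ℂ × ℂ → ℂ} (hg : ContDiffOn ℝ 1 g Ω) (m n : ℤ) {x y : ℝ} (hx : x ≠ 0)
    (hp : ((x : ℂ), (y : ℂ)) ∈ Ω) :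
    fderiv ℝ (hat g m n) ((x : ℂ), (y : ℂ)) (1, 0) =
      2 * hat (fun p => L1 (fderiv ℝ g p)) (m + 1) n ((x : ℂ), (y : ℂ)) +
        m / x * hat g m n ((x : ℂ), (y : ℂ)) := by
  have h1 := L1_hat hΩ hinv hg m n hp
  rw [L1_apply] at h1
  have h2 := hat_rot1 hΩ hinv hg m n hp
  have h3 : (Complex.I * (x : ℂ), (0 : ℂ)) = x • (Complex.I, (0 : ℂ)) := by
    ext <;> simp [mul_comm]
  simp only at h2
  rw [h3, map_smul, Complex.real_smul] at h2
  have hx' : (x : ℂ) ≠ 0 := by exact_mod_cast hx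
  have h4 : fderiv ℝ (hat g m n) ((x : ℂ), (y : ℂ)) (Complex.I, 0) =
      Complex.I * m * hat g m n ((x : ℂ), (y : ℂ)) / x := by
    field_simp
    rw [← h2]; ring
  rw [h4] at h1
  rw [← h1]
  linear_combination (- (m : ℂ) * hat g m n ((x : ℂ), (y : ℂ)) / x) * Complex.I_sq

/-- the real `y`-derivative of the mode. -/
theorem hat_dy {g : ℂ × ℂ → ℂ} (hg : ContDiffOn ℝ 1 g Ω) (m n : ℤ) {x y : ℝ} (hy : y ≠ 0)
    (hp : ((x : ℂ), (y : ℂ)) ∈ Ω) :
    fderiv ℝ (hat g m n) ((x : ℂ), (y : ℂ)) (0, 1) =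
      2 * hat (fun p => L2 (fderiv ℝ g p)) m (n + 1) ((x : ℂ), (y : ℂ)) +
        n / y * hat g m n ((x : ℂ), (y : ℂ)) := by
  have h1 := L2_hat hΩ hinv hg m n hp
  rw [L2_apply] at h1
  have h2 := hat_rot2 hΩ hinv hg m n hp
  have h3 : ((0 : ℂ), Complex.I * (y : ℂ)) = y • ((0 : ℂ), Complex.I) := by
    ext <;> simp [mul_comm]
  simp only at h2
  rw [h3, map_smul, Complex.real_smul] at h2
  have hy' : (y : ℂ) ≠ 0 := by exact_mod_cast hy
  have h4 : fderiv ℝ (hat g m n) ((x : ℂ), (y : ℂ)) (0, Complex.I) =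
      Complex.I * n * hat g m n ((x : ℂ), (y : ℂ)) / y := by
    field_simp
    rw [← h2]; ring
  rw [h4] at h1
  rw [← h1]
  linear_combination (- (n : ℂ) * hat g m n ((x : ℂ), (y : ℂ)) / y) * Complex.I_sq

end

/-- the embedding of the quadrant. -/
noncomputable def emb : ℝ × ℝ →L[ℝ] ℂ × ℂ :=
  (Complex.ofRealCLM.comp (ContinuousLinearMap.fst ℝ ℝ ℝ)).prod
    (Complex.ofRealCLM.comp (ContinuousLinearMap.snd ℝ ℝ ℝ))

@[simp] theorem emb_apply (q : ℝ × ℝ) : emb q = ((q.1 : ℂ), (q.2 : ℂ)) := by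
  simp [emb]

/-- the normalised mode. -/
noncomputable def mode (g : ℂ × ℂ → ℂ) (m n : ℤ) (q : ℝ × ℝ) : ℂ :=
  (q.1 : ℂ) ^ (-m) * (q.2 : ℂ) ^ (-n) * hat g m n (emb q)

section
variable {Ω : Set (ℂ × ℂ)} (hΩ : IsOpen Ω) (hinv : ∀ k p, p ∈ Ω → act k p ∈ Ω)
include hΩ hinv

theorem mode_dx {g : ℂ × ℂ → ℂ} (hg : ContDiffOn ℝ 1 g Ω) (m n : ℤ) {q : ℝ × ℝ} (hx : q.1 ≠ 0)
    (hy : q.2 ≠ 0) (hp : emb q ∈ Ω) :
    DifferentiableAt ℝ (mode g m n) q ∧
    fderiv ℝ (mode g m n) q (1, 0) =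
      2 * ((q.1 : ℂ) ^ (-m) * (q.2 : ℂ) ^ (-n) * hat (fun p => L1 (fderiv ℝ g p)) (m + 1) n (emb q)) ∧
    fderiv ℝ (mode g m n) q (0, 1) =
      2 * ((q.1 : ℂ) ^ (-m) * (q.2 : ℂ) ^ (-n) * hat (fun p => L2 (fderiv ℝ g p)) m (n + 1) (emb q)) := by
  obtain ⟨x, y⟩ := q
  simp only at hx hy
  have hx' : (x : ℂ) ≠ 0 := by exact_mod_cast hx
  have hy' : (y : ℂ) ≠ 0 := by exact_mod_cast hy
  have hd : HasFDerivAt (hat g m n) (fderiv ℝ (hat g m n) (emb (x, y))) (emb (x, y)) :=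
    (hat_deriv hΩ hinv hg m n hp).1.differentiableAt.hasFDerivAt
  have h1 : HasFDerivAt (fun q : ℝ × ℝ => hat g m n (emb q))
      ((fderiv ℝ (hat g m n) (emb (x, y))).comp emb) (x, y) := hd.comp (x, y) emb.hasFDerivAt
  have h2 : HasDerivAt (fun t : ℝ => (t : ℂ) ^ (-m)) (((-m : ℤ) : ℂ) * (x : ℂ) ^ (-m - 1)) x :=
    (hasDerivAt_zpow (-m) (x : ℂ) (Or.inl hx')).comp_ofReal
  have h3 : HasDerivAt (fun t : ℝ => (t : ℂ) ^ (-n)) (((-n : ℤ) : ℂ) * (y : ℂ) ^ (-n - 1)) y :=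
    (hasDerivAt_zpow (-n) (y : ℂ) (Or.inl hy')).comp_ofReal
  have h4 := HasFDerivAt.comp (g := fun t : ℝ => (t : ℂ) ^ (-m)) (f := Prod.fst) ((x, y) : ℝ × ℝ)
    h2.hasFDerivAt hasFDerivAt_fst
  have h5 := HasFDerivAt.comp (g := fun t : ℝ => (t : ℂ) ^ (-n)) (f := Prod.snd) ((x, y) : ℝ × ℝ)
    h3.hasFDerivAt hasFDerivAt_snd
  have h6 := (h4.mul h5).mul h1
  have h7 : HasFDerivAt (mode g m n) _ (x, y) := h6
  have e1 : (x : ℂ) ^ (-m - 1) = (x : ℂ) ^ (-m) / x := by rw [zpow_sub_one₀ hx']; rfl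
  have e2 : (y : ℂ) ^ (-n - 1) = (y : ℂ) ^ (-n) / y := by rw [zpow_sub_one₀ hy']; rfl
  refine ⟨h7.differentiableAt, ?_, ?_⟩
  · rw [h7.fderiv]
    have h8 := hat_dx hΩ hinv hg m n hx (by simpa using hp)
    simp only [add_apply, smul_apply,
      ContinuousLinearMap.comp_apply, emb_apply, ContinuousLinearMap.coe_fst',
      ContinuousLinearMap.coe_snd', smul_eq_mul, Complex.ofReal_one, Complex.ofReal_zero,
      Function.comp]
    rw [h8]
    simp only [ContinuousLinearMap.toSpanSingleton_apply, e1]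
    simp
    field_simp
    ring
  · rw [h7.fderiv]
    have h8 := hat_dy hΩ hinv hg m n hy (by simpa using hp)
    simp only [add_apply, smul_apply,
      ContinuousLinearMap.comp_apply, emb_apply, ContinuousLinearMap.coe_fst',
      ContinuousLinearMap.coe_snd', smul_eq_mul, Complex.ofReal_one, Complex.ofReal_zero,
      Function.comp]
    rw [h8]
    simp only [ContinuousLinearMap.toSpanSingleton_apply, e2]
    simp
    field_simp
    ring

end

end H51.HT
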