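import Pool.Agent.H51.Hartogs.Moll

open MeasureTheory Set Filter Topology
open scoped ENNReal NNReal Convolution ContDiff

namespace H51.HT

variable {E : Type*} [NormedAddCommGroup E] [NormedSpace ℝ E] [FiniteDimensional ℝ E]
  [MeasurableSpace E] [BorelSpace E] {μ : Measure E} [μ.IsAddHaarMeasure]
  {F : Type*} [NormedAddCommGroup F] [NormedSpace ℂ F] [CompleteSpace F]

/-- `f` is the weak derivative `L(du)` on `Ω`. -/
def WD (μ : Measure E) (Ω : Set E) (L : (E →L[ℝ] ℂ) →L[ℂ] F) (u : E → ℂ) (f : E → F) : Prop :=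
  ∀ φ : E → ℂ, ContDiff ℝ ∞ φ → HasCompactSupport φ → tsupport φ ⊆ Ω →
    ∫ x in Ω, u x • L (fderiv ℝ φ x) ∂μ = - ∫ x in Ω, φ x • f x ∂μ

/-- mollification. -/
noncomputable def moll (μ : Measure E) {F : Type*} [NormedAddCommGroup F] [NormedSpace ℝ F]
    (φ : E → ℝ) (U : E → F) (x : E) : F :=
  ∫ t, φ (x - t) • U t ∂μ

theorem moll_contDiff {U : E → ℂ} (hU : LocallyIntegrable U μ) {φ : E → ℝ}
    (hφ : ContDiff ℝ ∞ φ) (hφcs : HasCompactSupport φ) : ContDiff ℝ ∞ (moll μ φ U) := by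
  have := hφcs.contDiff_convolution_right (μ := μ) (n := ⊤)
    ((ContinuousLinearMap.lsmul ℝ ℝ).flip : ℂ →L[ℝ] ℝ →L[ℝ] ℂ) hU hφ
  exact this

theorem moll_deriv {U : E → ℂ} (hU : LocallyIntegrable U μ) {G : E → F}
    (L : (E →L[ℝ] ℂ) →L[ℂ] F) (hw : WD μ univ L U G) {φ : E → ℝ}
    (hφ : ContDiff ℝ ∞ φ) (hφcs : HasCompactSupport φ) (x : E) :
    L (fderiv ℝ (moll μ φ U) x) = moll μ φ G x := by
  have h1 := hφcs.hasFDerivAt_convolution_right (μ := μ)
    ((ContinuousLinearMap.lsmul ℝ ℝ).flip : ℂ →L[ℝ] ℝ →L[ℝ] ℂ) hU (hφ.of_le (by simp)) x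
  have h2 : (U ⋆[((ContinuousLinearMap.lsmul ℝ ℝ).flip : ℂ →L[ℝ] ℝ →L[ℝ] ℂ), μ] φ)
      = moll μ φ U := rfl
  rw [h2] at h1
  rw [h1.fderiv]
  have hcs2 : HasCompactSupport (fderiv ℝ φ) := hφcs.fderiv ℝ
  have hcont2 : Continuous (fderiv ℝ φ) := hφ.continuous_fderiv (by simp)
  have hex := (hcs2.convolutionExists_right
    (((ContinuousLinearMap.lsmul ℝ ℝ).flip : ℂ →L[ℝ] ℝ →L[ℝ] ℂ).precompR E) hU hcont2) x
  rw [convolution]
  have h3 := (L.restrictScalars ℝ).integral_comp_comm hex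
  simp only [ContinuousLinearMap.coe_restrictScalars'] at h3
  rw [← h3]
  -- test function
  set ψ : E → ℂ := fun t => ((φ (x - t) : ℝ) : ℂ) with hψ
  have hψd : ContDiff ℝ ∞ ψ := by
    rw [hψ]
    exact Complex.ofRealCLM.contDiff.comp (hφ.comp (contDiff_const.sub contDiff_id))
  have hψcs : HasCompactSupport ψ := by
    have : HasCompactSupport (fun t => φ (x - t)) :=
      hφcs.comp_homeomorph (Homeomorph.subLeft x)
    exact this.comp_left (g := fun r : ℝ => (r : ℂ)) (by simp)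
  have h4 := hw ψ hψd hψcs (subset_univ _)
  simp only [Measure.restrict_univ] at h4
  have h5 : ∀ t, fderiv ℝ ψ t = - (Complex.ofRealCLM.comp (fderiv ℝ φ (x - t))) := by
    intro t
    have hd : HasFDerivAt φ (fderiv ℝ φ (x - t)) (x - t) :=
      (hφ.differentiable (by simp)).differentiableAt.hasFDerivAt
    have h6 : HasFDerivAt (fun t => x - t) (-(ContinuousLinearMap.id ℝ E)) t := by
      simpa using (hasFDerivAt_id t).const_sub x
    have h7 := (Complex.ofRealCLM.hasFDerivAt.comp t (hd.comp t h6)).fderiv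
    have h8 : ψ = (Complex.ofRealCLM ∘ φ ∘ fun t => x - t) := by
      funext t; simp [hψ]
    rw [h8, h7]
    ext v
    simp
  have h9 : ∀ t, L ((((ContinuousLinearMap.lsmul ℝ ℝ).flip : ℂ →L[ℝ] ℝ →L[ℝ] ℂ).precompR E)
      (U t) (fderiv ℝ φ (x - t))) = - (U t • L (fderiv ℝ ψ t)) := by
    intro t
    rw [h5, ← map_smul, ← map_neg]
    congr 1
    ext v
    simp [mul_comm]
  simp only [h9]
  rw [integral_neg, h4, neg_neg]
  rfl

/-- the complexified derivative of a real function -/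
noncomputable def dC (χ : E → ℝ) (x : E) : E →L[ℝ] ℂ := Complex.ofRealCLM.comp (fderiv ℝ χ x)

theorem memLp_cut {Ω : Set E} (hΩ : IsOpen Ω) {F : Type*} [NormedAddCommGroup F] [NormedSpace ℝ F]
    {f : E → F}
    (hf : MemLp f 2 (μ.restrict Ω)) {χ : E → ℝ} (hχ : Continuous χ) (hχcs : HasCompactSupport χ)
    (hχs : tsupport χ ⊆ Ω) : MemLp (fun x => χ x • f x) 2 μ := by
  have h1 : (fun x => χ x • f x) = Ω.indicator (fun x => χ x • f x) := by
    funext x
    by_cases hx : x ∈ Ω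
    · simp [hx]
    · rw [indicator_of_notMem hx, image_eq_zero_of_notMem_tsupport (fun h => hx (hχs h)), zero_smul]
  rw [h1, memLp_indicator_iff_restrict hΩ.measurableSet]
  obtain ⟨C, hC⟩ := hχ.bounded_above_of_compact_support hχcs
  exact hf.smul (p := ∞) (q := 2) (r := 2)
    (memLp_top_of_bound hχ.aestronglyMeasurable C (Eventually.of_forall hC))

theorem memLp_cut2 {Ω : Set E} (hΩ : IsOpen Ω) {u : E → ℂ}
    (hu : MemLp u 2 (μ.restrict Ω)) {A : E → F} (hA : Continuous A) (hAcs : HasCompactSupport A)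
    (hAs : tsupport A ⊆ Ω) : MemLp (fun x => u x • A x) 2 μ := by
  have h1 : (fun x => u x • A x) = Ω.indicator (fun x => u x • A x) := by
    funext x
    by_cases hx : x ∈ Ω
    · simp [hx]
    · rw [indicator_of_notMem hx, image_eq_zero_of_notMem_tsupport (fun h => hx (hAs h)), smul_zero]
  rw [h1, memLp_indicator_iff_restrict hΩ.measurableSet]
  obtain ⟨C, hC⟩ := hA.bounded_above_of_compact_support hAcs
  exact (memLp_top_of_bound hA.aestronglyMeasurable C (Eventually.of_forall hC)).smul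
    (p := 2) (q := ∞) (r := 2) hu

theorem wd_cut {Ω : Set E} (hΩ : IsOpen Ω) (L : (E →L[ℝ] ℂ) →L[ℂ] F) {u : E → ℂ} {f : E → F}
    (hu : MemLp u 2 (μ.restrict Ω)) (hf : MemLp f 2 (μ.restrict Ω)) (hw : WD μ Ω L u f)
    {χ : E → ℝ} (hχ : ContDiff ℝ ∞ χ) (hχcs : HasCompactSupport χ) (hχs : tsupport χ ⊆ Ω) :
    MemLp (fun x => χ x • u x) 2 μ ∧ MemLp (fun x => χ x • f x + u x • L (dC χ x)) 2 μ ∧
      WD μ univ L (fun x => χ x • u x) (fun x => χ x • f x + u x • L (dC χ x)) := by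
  have hdC : Continuous (fun x => L (dC χ x)) := by
    unfold dC
    have := hχ.continuous_fderiv (by simp)
    fun_prop
  have hdCcs : HasCompactSupport (fun x => L (dC χ x)) := by
    have h1 : HasCompactSupport (fderiv ℝ χ) := hχcs.fderiv ℝ
    exact h1.comp_left (g := fun A : E →L[ℝ] ℝ => L (Complex.ofRealCLM.comp A)) (by simp)
  have hdCs : tsupport (fun x => L (dC χ x)) ⊆ Ω := by
    refine subset_trans ?_ hχs
    refine subset_trans ?_ (tsupport_fderiv_subset ℝ)
    exact closure_mono (fun x hx => by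
      contrapose! hx
      simp only [Function.mem_support, ne_eq, not_not] at hx
      simp [dC, hx])
  have hA := memLp_cut hΩ hu hχ.continuous hχcs hχs
  have hB := memLp_cut hΩ hf hχ.continuous hχcs hχs
  have hC := memLp_cut2 hΩ hu hdC hdCcs hdCs
  refine ⟨hA, hB.add hC, ?_⟩
  intro φ hφ hφcs _
  have hφc : Continuous φ := hφ.continuous
  -- test function χ φ
  have h1 := hw (fun x => χ x • φ x) (hχ.smul hφ) hχcs.smul_right
    (subset_trans (tsupport_smul_subset_left _ _) hχs)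
  have hfd : ∀ x, fderiv ℝ (fun x => χ x • φ x) x = χ x • fderiv ℝ φ x + φ x • dC χ x := by
    intro x
    have ha : DifferentiableAt ℝ χ x := (hχ.differentiable (by simp)).differentiableAt
    have hb : DifferentiableAt ℝ φ x := (hφ.differentiable (by simp)).differentiableAt
    rw [fderiv_fun_smul ha hb]
    ext v
    simp [dC, mul_comm]
  simp only [Measure.restrict_univ]
  have hL : ∀ x, L (fderiv ℝ (fun x => χ x • φ x) x) = χ x • L (fderiv ℝ φ x) + φ x • L (dC χ x) := by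
    intro x
    have hr : L (χ x • fderiv ℝ φ x) = χ x • L (fderiv ℝ φ x) := by
      have h := L.map_smul ((χ x : ℝ) : ℂ) (fderiv ℝ φ x)
      rw [Complex.coe_smul] at h
      rw [← Complex.coe_smul (χ x) (L (fderiv ℝ φ x))]
      exact h
    have hr2 : L (φ x • dC χ x) = φ x • L (dC χ x) := L.map_smul (φ x) (dC χ x)
    rw [hfd, map_add, hr, hr2]
  simp only [hL] at h1
  have hLφc : Continuous (fun x => L (fderiv ℝ φ x)) := by
    have := hφ.continuous_fderiv (by simp)
    fun_prop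
  have hLφcs : HasCompactSupport (fun x => L (fderiv ℝ φ x)) := by
    have h1 : HasCompactSupport (fderiv ℝ φ) := hφcs.fderiv ℝ
    exact h1.comp_left (g := fun A : E →L[ℝ] ℂ => L A) (by simp)
  have hAi : Integrable (fun x => (χ x • u x) • L (fderiv ℝ φ x)) μ :=
    (hA.locallyIntegrable (by norm_num)).integrable_smul_right_of_hasCompactSupport hLφc hLφcs
  have hCi : Integrable (fun x => φ x • (u x • L (dC χ x))) μ :=
    (hC.locallyIntegrable (by norm_num)).integrable_smul_left_of_hasCompactSupport hφc hφcs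
  have hBi : Integrable (fun x => φ x • (χ x • f x)) μ :=
    (hB.locallyIntegrable (by norm_num)).integrable_smul_left_of_hasCompactSupport hφc hφcs
  have hout : ∀ x ∉ Ω, χ x = 0 := fun x hx =>
    image_eq_zero_of_notMem_tsupport (fun h => hx (hχs h))
  have hout2 : ∀ x ∉ Ω, L (dC χ x) = 0 := fun x hx =>
    image_eq_zero_of_notMem_tsupport (f := fun x => L (dC χ x)) (fun h => hx (hdCs h))
  have hA' : ∫ x, (χ x • u x) • L (fderiv ℝ φ x) ∂μ
      = ∫ x in Ω, (χ x • u x) • L (fderiv ℝ φ x) ∂μ := by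
    rw [setIntegral_eq_integral_of_forall_compl_eq_zero]
    intro x hx; simp [hout x hx]
  have hC' : ∫ x, φ x • (u x • L (dC χ x)) ∂μ = ∫ x in Ω, φ x • (u x • L (dC χ x)) ∂μ := by
    rw [setIntegral_eq_integral_of_forall_compl_eq_zero]
    intro x hx; simp [hout2 x hx]
  have hB' : ∫ x, φ x • (χ x • f x) ∂μ = ∫ x in Ω, φ x • (χ x • f x) ∂μ := by
    rw [setIntegral_eq_integral_of_forall_compl_eq_zero]
    intro x hx; simp [hout x hx]
  have h2 : ∫ x, φ x • (χ x • f x + u x • L (dC χ x)) ∂μ =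
      ∫ x, φ x • (χ x • f x) ∂μ + ∫ x, φ x • (u x • L (dC χ x)) ∂μ := by
    rw [← integral_add hBi hCi]; simp only [smul_add]
  rw [h2, hA', hB', hC']
  have h3 : ∫ x in Ω, u x • (χ x • L (fderiv ℝ φ x) + φ x • L (dC χ x)) ∂μ
      = ∫ x in Ω, (χ x • u x) • L (fderiv ℝ φ x) ∂μ + ∫ x in Ω, φ x • (u x • L (dC χ x)) ∂μ := by
    rw [← integral_add hAi.integrableOn hCi.integrableOn]
    congr 1; funext x
    rw [smul_add, smul_comm (u x) (φ x), smul_comm (u x) (χ x), smul_assoc]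
  have h4 : ∫ x in Ω, (χ x • φ x) • f x ∂μ = ∫ x in Ω, φ x • (χ x • f x) ∂μ := by
    congr 1; funext x
    rw [smul_assoc, smul_comm]
  rw [h3, h4] at h1
  rw [neg_add, ← h1]
  abel

end H51.HT
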